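import Pool.Agent.Q21.MI.Mat

/-! Assembly: the isomorphism for groups of class two and prime exponent. -/

namespace Q21.MI

open Finset

namespace GBasis

variable {F A G H : Type*} [Field F] [Ring A] [Algebra F A] [Group G] [Group H]
variable (B : GBasis F A G) (C : GBasis F A H)

lemma ab_surj : Function.Surjective B.ab := by
  intro x
  induction x using MonoidAlgebra.induction_linear with
  | zero => exact ⟨0, map_zero _⟩
  | add x y hx hy =>
    obtain ⟨a, rfl⟩ := hx
    obtain ⟨b, rfl⟩ := hy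
    exact ⟨a + b, map_add _ _ _⟩
  | single m r =>
    obtain ⟨g, rfl⟩ := QuotientGroup.mk_surjective m
    refine ⟨r • B.b g, ?_⟩
    rw [map_smul, ab_b]
    change r • MonoidAlgebra.single (Abelianization.of g) (1 : F)
      = MonoidAlgebra.single (Abelianization.of g) r
    simp

include B C in
lemma card_abel : Nat.card (Abelianization G) = Nat.card (Abelianization H) := by
  obtain ⟨θ, hθ⟩ := ab_factor B C
  obtain ⟨η, hη⟩ := ab_factor C B
  have e1 : ∀ x, η (θ x) = x := by
    intro x
    obtain ⟨a, rfl⟩ := B.ab_surj x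
    rw [hθ, hη]
  have e2 : ∀ x, θ (η x) = x := by
    intro x
    obtain ⟨a, rfl⟩ := C.ab_surj x
    rw [hη, hθ]
  let e : MonoidAlgebra F (Abelianization G) ≃ₗ[F] MonoidAlgebra F (Abelianization H) :=
    LinearEquiv.ofLinearMap θ.toLinearMap η.toLinearMap (LinearMap.ext fun x => e2 x)
      (LinearMap.ext fun x => e1 x)
  have h1 := e.finrank_eq
  rw [Module.finrank_eq_nat_card_basis (MonoidAlgebra.basis (Abelianization G) F),
    Module.finrank_eq_nat_card_basis (MonoidAlgebra.basis (Abelianization H) F)] at h1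
  exact h1

lemma card_comm (G : Type*) [Group G] [Finite G] :
    Nat.card (commutator G) * Nat.card (Abelianization G) = Nat.card G := by
  rw [mul_comm]
  exact (Subgroup.card_eq_card_quotient_mul_card_subgroup (commutator G)).symm

/-- the main theorem, normalised version -/
theorem iso_norm [Finite G] [Finite H] (p : ℕ) [Fact p.Prime] [CharP F p]
    (hexp : ∀ g : G, g ^ p = 1) (hcl : ∀ g ∈ commutator G, g ∈ Subgroup.center G)
    (haug : B.aug = C.aug) (hcard : Nat.card G = Nat.card H) : Nonempty (G ≃* H) := by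
  classical
  have := Fintype.ofFinite G
  have := Fintype.ofFinite H
  have hI : ∀ x, B.ab x = 0 ↔ C.ab x = 0 := fun x => ⟨ab_zero B C, ab_zero C B⟩
  have hIe : B.I = C.I := by
    ext x; rw [mem_I, mem_I]; exact hI x
  have hJe : B.J = C.J := by
    ext x; rw [mem_J, mem_J, haug]
  have hLe : B.L = C.L := by unfold L; rw [hIe, hJe]
  have haug' : ∀ h, B.aug (C.b h) = 1 := by intro h; rw [haug, aug_b]
  have hcm : ∀ w ∈ commutator G, ∀ k, w * k = k * w := fun w hw k =>
    ((Subgroup.mem_center_iff.1 (hcl w hw)) k).symm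
  -- the relation on commutator subgroups
  let N : Subgroup (G × H) :=
    { carrier := {x | x.1 ∈ commutator G ∧ x.2 ∈ commutator H ∧ B.b x.1 - C.b x.2 ∈ B.L}
      one_mem' := by
        refine ⟨Subgroup.one_mem _, Subgroup.one_mem _, ?_⟩
        simp [B.one, C.one]
      mul_mem' := by
        rintro x y ⟨h1, h2, h3⟩ ⟨h4, h5, h6⟩
        refine ⟨Subgroup.mul_mem _ h1 h4, Subgroup.mul_mem _ h2 h5, ?_⟩
        simp only [Prod.fst_mul, Prod.snd_mul, B.mul, C.mul]
        have e : B.b x.1 * B.b y.1 - C.b x.2 * C.b y.2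
            = (B.b x.1 - C.b x.2) * B.b y.1 + C.b x.2 * (B.b y.1 - C.b y.2) := by noncomm_ring
        rw [e]
        exact B.L.add_mem (B.L_mul_right h3 _) (B.L_mul_left h6 _)
      inv_mem' := by
        rintro x ⟨h1, h2, h3⟩
        refine ⟨Subgroup.inv_mem _ h1, Subgroup.inv_mem _ h2, ?_⟩
        simp only [Prod.fst_inv, Prod.snd_inv]
        have e : B.b x.1⁻¹ - C.b x.2⁻¹
            = - (B.b x.1⁻¹ * (B.b x.1 - C.b x.2) * C.b x.2⁻¹) := by
          rw [mul_sub, sub_mul, B.inv_mul, one_mul, mul_assoc, C.mul_inv, mul_one]; abel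
        rw [e]
        exact B.L.neg_mem (B.L_mul_right (B.L_mul_left h3 _) _) }
  have hcomm' : ∀ g g' : G, g * g' * g⁻¹ * g'⁻¹ ∈ commutator G := fun g g' => by
    have := Subgroup.commutator_mem_commutator (Subgroup.mem_top g) (Subgroup.mem_top g')
    rw [commutatorElement_def] at this
    exact this
  have hcommH : ∀ g g' : H, g * g' * g⁻¹ * g'⁻¹ ∈ commutator H := fun g g' => by
    have := Subgroup.commutator_mem_commutator (Subgroup.mem_top g) (Subgroup.mem_top g')
    rw [commutatorElement_def] at this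
    exact this
  have hmatch : ∀ {h h' : H} {g g' : G}, rel B C h g → rel B C h' g' →
      (g * g' * g⁻¹ * g'⁻¹, h * h' * h⁻¹ * h'⁻¹) ∈ N := by
    intro h h' g g' hr hr'
    exact ⟨hcomm' g g', hcommH h h', comm_match B C hcl hI haug hr hr'⟩
  -- totality
  have tot1 : ∀ w ∈ commutator G, ∃ w' ∈ commutator H, (w, w') ∈ N := by
    intro w hw
    have h0 : commutator G ≤ N.map (MonoidHom.fst G H) := by
      rw [commutator_eq_closure, Subgroup.closure_le]
      rintro _ ⟨g, g', rfl⟩
      obtain ⟨h, hr⟩ := rel_surj B C p hexp hcl g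
      obtain ⟨h', hr'⟩ := rel_surj B C p hexp hcl g'
      exact ⟨_, hmatch hr hr', by rw [commutatorElement_def]; rfl⟩
    obtain ⟨⟨x, y⟩, hx, rfl⟩ := h0 hw
    exact ⟨y, hx.2.1, hx⟩
  have tot2 : ∀ w' ∈ commutator H, ∃ w ∈ commutator G, (w, w') ∈ N := by
    intro w hw
    have h0 : commutator H ≤ N.map (MonoidHom.snd G H) := by
      rw [commutator_eq_closure, Subgroup.closure_le]
      rintro _ ⟨h, h', rfl⟩
      obtain ⟨g, hr⟩ := exists_rel B C p hexp hcl h
      obtain ⟨g', hr'⟩ := exists_rel B C p hexp hcl h'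
      exact ⟨_, hmatch hr hr', by rw [commutatorElement_def]; rfl⟩
    obtain ⟨⟨x, y⟩, hx, rfl⟩ := h0 hw
    exact ⟨x, hx.1, hx⟩
  have hN1 : ∀ g : G, (g, (1 : H)) ∈ N → g = 1 := by
    rintro g ⟨h1, _, h3⟩
    apply inj_G B p hexp hcl g h1
    simpa [C.one] using h3
  -- counting
  have hcc : Nat.card (commutator G) = Nat.card (commutator H) := by
    have h1 := card_comm G
    have h2 := card_comm H
    have h3 := card_abel B C
    have h4 : 0 < Nat.card (Abelianization H) := Nat.card_pos
    rw [h3] at h1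
    exact Nat.eq_of_mul_eq_mul_right h4 (by rw [h1, h2, hcard])
  choose f hf1 hf2 using tot2
  have hfs : Function.Surjective (fun x : commutator H => (⟨f x.1 x.2, hf1 x.1 x.2⟩ :
      commutator G)) := by
    rintro ⟨w, hw⟩
    obtain ⟨w', hw', hww⟩ := tot1 w hw
    refine ⟨⟨w', hw'⟩, Subtype.ext ?_⟩
    have h1 := N.mul_mem hww (N.inv_mem (hf2 w' hw'))
    have h2 : (w, w') * (f w' hw', w')⁻¹ = (w * (f w' hw')⁻¹, 1) := by
      ext <;> simp
    rw [h2] at h1
    have h3 := hN1 _ h1
    rw [mul_inv_eq_one] at h3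
    exact h3.symm
  have hfi := ((Nat.bijective_iff_surjective_and_card _).2 ⟨hfs, hcc.symm⟩).1
  have hN2 : ∀ h : H, ((1 : G), h) ∈ N → h = 1 := by
    intro h hh
    have hm := hh.2.1
    have h1 := N.mul_mem hh (N.inv_mem (hf2 h hm))
    have h2 : ((1 : G), h) * (f h hm, h)⁻¹ = ((f h hm)⁻¹, 1) := by
      ext <;> simp
    rw [h2] at h1
    have h3 := hN1 _ h1
    rw [inv_eq_one] at h3
    have h4 := hf2 1 (Subgroup.one_mem _)
    have h5 := hN1 _ h4
    have h6 := @hfi ⟨h, hm⟩ ⟨1, Subgroup.one_mem _⟩ (Subtype.ext (by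
      change f h hm = f 1 _; rw [h3, h5]))
    exact congrArg Subtype.val h6
  -- exponent
  have hHexp : ∀ h : H, h ^ p = 1 := by
    intro h
    obtain ⟨g, hr⟩ := exists_rel B C p hexp hcl h
    apply hN2
    refine ⟨Subgroup.one_mem _, ?_, ?_⟩
    · rw [← Abelianization.ker_of, MonoidHom.mem_ker, map_pow]
      exact abel_exp B C p hexp h
    · have := pow_match B C p hexp hcl haug' hr
      have h2 := B.L.neg_mem this
      simpa [B.one] using h2
  -- the correspondence
  have hrinv : ∀ {h : H} {g : G}, rel B C h g → rel B C h⁻¹ g⁻¹ := by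
    intro h g hr
    obtain ⟨g', hr'⟩ := exists_rel B C p hexp hcl h⁻¹
    have h1 := rel_mul B C hcl hr hr'
    rw [mul_inv_cancel] at h1
    have h2 := rel_unique B C h1 (rel_one B C hcl)
    apply rel_congr B C hr'
    rw [QuotientGroup.mk_mul, QuotientGroup.mk_one] at h2
    rw [QuotientGroup.mk_inv]
    exact (inv_eq_of_mul_eq_one_right h2).symm
  let Γ : Subgroup (G × H) :=
    { carrier := {x | rel B C x.2 x.1}
      one_mem' := rel_one B C hcl
      mul_mem' := fun h1 h2 => rel_mul B C hcl h1 h2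
      inv_mem' := fun h1 => hrinv h1 }
  have hG1 : ∀ w ∈ commutator G, (w : G ⧸ Subgroup.center G) = (1 : G) := by
    intro w hw
    rw [eq_comm, QuotientGroup.eq]
    simpa using hcl w hw
  have hNΓ : N ≤ Γ := by
    rintro ⟨w, w'⟩ ⟨h1, h2, _⟩
    have h0 : commutator H ≤ (Γ.comap (MonoidHom.inr G H)) := by
      rw [commutator_eq_closure, Subgroup.closure_le]
      rintro _ ⟨h, h', rfl⟩
      obtain ⟨g, hr⟩ := exists_rel B C p hexp hcl h
      obtain ⟨g', hr'⟩ := exists_rel B C p hexp hcl h'
      have h3 := rel_mul B C hcl (rel_mul B C hcl (rel_mul B C hcl hr hr') (hrinv hr)) (hrinv hr')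
      exact rel_congr B C h3 (hG1 _ (hcomm' g g'))
    have h3 : rel B C w' 1 := h0 h2
    exact rel_congr B C h3 (hG1 w h1).symm
  exact iso_of_corr p hexp hHexp Γ N hNΓ
    (fun x hx y hy => hmatch hx hy) hN1 hN2
    (fun g => rel_surj B C p hexp hcl g) (fun h => exists_rel B C p hexp hcl h) hcard

include B C in
/-- the main theorem for two group bases -/
theorem iso [Finite G] (p : ℕ) [Fact p.Prime] [CharP F p]
    (hexp : ∀ g : G, g ^ p = 1) (hcl : ∀ g ∈ commutator G, g ∈ Subgroup.center G) :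
    Nonempty (G ≃* H) := by
  have hfin : Module.Finite F A := Module.Finite.of_basis B.b
  have : Nontrivial F := inferInstance
  have hH : Finite H := by
    exact Module.Finite.finite_basis C.b
  have hcard : Nat.card G = Nat.card H := by
    rw [← Module.finrank_eq_nat_card_basis B.b, Module.finrank_eq_nat_card_basis C.b]
  let χ : H →* Fˣ := (MonoidHom.toHomUnits ((B.aug : A →* F).comp C.hom))⁻¹
  let C' := C.twist χ
  have hχ : ∀ h, B.aug (C'.b h) = 1 := by
    intro h
    change B.aug ((C.twist χ).b h) = 1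
    rw [C.twist_b, map_smul]
    simp only [χ, MonoidHom.inv_apply, smul_eq_mul]
    have h1 : ((MonoidHom.toHomUnits ((B.aug : A →* F).comp C.hom) h : Fˣ) : F)
        = B.aug (C.b h) := by simp
    rw [← h1, Units.inv_mul]
  have haug : B.aug = C'.aug := by
    have key : B.aug.toLinearMap = C'.aug.toLinearMap := by
      refine C'.b.ext fun h => ?_
      simp [hχ]
    exact AlgHom.toLinearMap_injective key
  exact iso_norm B C' p hexp hcl haug hcard

end GBasis

end Q21.MI
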