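import Pool.Agent.Q21.MI.Fin

/-! Dimension subgroups. -/

namespace Q21.MI

/-- the augmentation ideal of the group algebra, as an `F`-subspace -/
noncomputable def Delta (F G : Type*) [Field F] [Group G] : Submodule F (MonoidAlgebra F G) :=
  LinearMap.ker (MonoidAlgebra.lift F F G (1 : G →* F)).toLinearMap

/-- the dimension subgroup `D_n(G) = G ∩ (1 + Δ^n(FG))`, as a set -/
def dimSubgroup (F G : Type*) [Field F] [Group G] (n : ℕ) : Set G :=
  {g | MonoidAlgebra.single g (1 : F) - 1 ∈ (Delta F G) ^ n}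

variable {F G : Type*} [Field F] [Group G]

lemma mem_Delta {x : MonoidAlgebra F G} :
    x ∈ Delta F G ↔ MonoidAlgebra.lift F F G (1 : G →* F) x = 0 := Iff.rfl

lemma single_sub_one_mem (g : G) : MonoidAlgebra.single g (1 : F) - 1 ∈ Delta F G := by
  rw [mem_Delta, map_sub]
  have h1 := map_one (MonoidAlgebra.lift F F G (1 : G →* F))
  rw [h1, MonoidAlgebra.lift_single]; simp

lemma Delta_mul_right {x : MonoidAlgebra F G} (hx : x ∈ Delta F G) (y : MonoidAlgebra F G) :
    x * y ∈ Delta F G := by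
  rw [mem_Delta] at *; rw [map_mul, hx, zero_mul]

lemma Delta_pow_mul_right (n : ℕ) (hn : 1 ≤ n) {x : MonoidAlgebra F G} (hx : x ∈ (Delta F G) ^ n)
    (y : MonoidAlgebra F G) : x * y ∈ (Delta F G) ^ n := by
  obtain ⟨m, rfl⟩ : ∃ m, n = m + 1 := ⟨n - 1, by omega⟩
  rw [pow_succ] at *
  have h1 : (Delta F G) ^ m * Delta F G ≤ ((Delta F G) ^ m * Delta F G).comap
      (LinearMap.mulRight F y) := by
    rw [Submodule.mul_le]
    intro a ha b hb
    simp only [Submodule.mem_comap, LinearMap.mulRight_apply, mul_assoc]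
    exact Submodule.mul_mem_mul ha (Delta_mul_right hb y)
  exact h1 hx

lemma Delta_pow_le {m n : ℕ} (hm : 1 ≤ m) (hmn : m ≤ n) : (Delta F G) ^ n ≤ (Delta F G) ^ m := by
  obtain ⟨k, rfl⟩ : ∃ k, n = m + k := ⟨n - m, by omega⟩
  rw [pow_add, Submodule.mul_le]
  intro a ha b _
  exact Delta_pow_mul_right m hm ha b

lemma single_mul' (g h : G) : (MonoidAlgebra.single (g * h) (1 : F))
    = MonoidAlgebra.single g 1 * MonoidAlgebra.single h 1 := by simp

lemma single_pow' (g : G) (n : ℕ) : (MonoidAlgebra.single (g ^ n) (1 : F))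
    = (MonoidAlgebra.single g 1) ^ n := by simp

lemma comm_mem {n : ℕ} {g h : G} (hg : MonoidAlgebra.single g (1 : F) - 1 ∈ (Delta F G) ^ n)
    (hcomm : ∀ x ∈ (Delta F G) ^ n, ∀ y ∈ Delta F G, y * x ∈ (Delta F G) ^ (n + 1)) :
    MonoidAlgebra.single (g * h * g⁻¹ * h⁻¹) (1 : F) - 1 ∈ (Delta F G) ^ (n + 1) := by
  have h1 := single_sub_one_mem (F := F) h
  have h2 : (MonoidAlgebra.single g (1 : F) - 1) * (MonoidAlgebra.single h (1 : F) - 1)
      ∈ (Delta F G) ^ (n + 1) := by
    rw [pow_succ]; exact Submodule.mul_mem_mul hg h1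
  have h3 := hcomm _ hg _ h1
  have h4 : MonoidAlgebra.single (g * h * g⁻¹ * h⁻¹) (1 : F) - 1
      = ((MonoidAlgebra.single g (1 : F) - 1) * (MonoidAlgebra.single h (1 : F) - 1)
        - (MonoidAlgebra.single h (1 : F) - 1) * (MonoidAlgebra.single g (1 : F) - 1))
        * MonoidAlgebra.single (g⁻¹ * h⁻¹) (1 : F) := by
    have e1 : (MonoidAlgebra.single g (1 : F) - 1) * (MonoidAlgebra.single h (1 : F) - 1)
        - (MonoidAlgebra.single h (1 : F) - 1) * (MonoidAlgebra.single g (1 : F) - 1)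
        = MonoidAlgebra.single (g * h) (1 : F) - MonoidAlgebra.single (h * g) (1 : F) := by
      rw [single_mul', single_mul']; noncomm_ring
    rw [e1, sub_mul, ← single_mul', ← single_mul']
    congr 2
    · group
    · rw [MonoidAlgebra.one_def]; congr 1; group
  rw [h4]
  exact Delta_pow_mul_right _ (by omega) (Submodule.sub_mem _ h2 h3) _

/-- the facts about groups with trivial third dimension subgroup -/
lemma class_two (hD : dimSubgroup F G 3 = {1}) :
    ∀ g ∈ commutator G, g ∈ Subgroup.center G := by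
  have hcen : ∀ a b c : G, (a * b * a⁻¹ * b⁻¹) * c * (a * b * a⁻¹ * b⁻¹)⁻¹ * c⁻¹ = 1 := by
    intro a b c
    have h1 : MonoidAlgebra.single a (1 : F) - 1 ∈ (Delta F G) ^ 1 := by
      rw [pow_one]; exact single_sub_one_mem a
    have h2 := comm_mem (h := b) h1 (by
      intro x hx y hy
      rw [pow_succ, pow_one]; rw [pow_one] at hx
      exact Submodule.mul_mem_mul hy hx)
    have h3 := comm_mem (h := c) h2 (by
      intro x hx y hy
      have e : (Delta F G) ^ (1 + 1 + 1) = (Delta F G) * (Delta F G) ^ (1 + 1) := by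
        rw [pow_succ' _ (1 + 1)]
      rw [e]
      exact Submodule.mul_mem_mul hy hx)
    have h4 : (a * b * a⁻¹ * b⁻¹) * c * (a * b * a⁻¹ * b⁻¹)⁻¹ * c⁻¹ ∈ dimSubgroup F G 3 := h3
    rw [hD] at h4
    exact h4
  have h0 : commutator G ≤ Subgroup.center G := by
    rw [commutator_eq_closure, Subgroup.closure_le]
    rintro _ ⟨a, b, rfl⟩
    rw [SetLike.mem_coe, Subgroup.mem_center_iff]
    intro c
    have h1 := hcen a b c
    rw [mul_inv_eq_one, mul_inv_eq_iff_eq_mul] at h1
    rw [commutatorElement_def]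
    exact h1.symm
  exact fun g hg => h0 hg

lemma exp_odd (p : ℕ) [Fact p.Prime] [CharP F p] (hp : 3 ≤ p) (hD : dimSubgroup F G 3 = {1})
    (g : G) : g ^ p = 1 := by
  have : CharP (MonoidAlgebra F G) p :=
    charP_of_injective_algebraMap (algebraMap F (MonoidAlgebra F G)).injective p
  have h1 : MonoidAlgebra.single (g ^ p) (1 : F) - 1 = (MonoidAlgebra.single g (1 : F) - 1) ^ p := by
    rw [sub_pow_char_of_commute p (Commute.one_right _), one_pow, single_pow']
  have h2 : g ^ p ∈ dimSubgroup F G 3 := by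
    change MonoidAlgebra.single (g ^ p) (1 : F) - 1 ∈ (Delta F G) ^ 3
    rw [h1]
    exact Delta_pow_le (by norm_num) hp (Submodule.pow_mem_pow _ (single_sub_one_mem g) p)
  rw [hD] at h2
  exact h2

end Q21.MI
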