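import Pool.Agent.Q21.MI.GB

/-! Derivations of algebras with a group basis. -/

namespace Q21.MI

open Finset

/-- the Leibniz rule -/
def IsDer {F A : Type*} [Field F] [Ring A] [Algebra F A] (D : A →ₗ[F] A) : Prop :=
  ∀ a b, D (a * b) = D a * b + a * D b

lemma IsDer.map_one {F A : Type*} [Field F] [Ring A] [Algebra F A] {D : A →ₗ[F] A}
    (hD : IsDer D) : D 1 = 0 := by
  have := hD 1 1
  simpa using this

/-- sum over free orbits of conjugation by an element of prime order -/
lemma orbit_sum {F G : Type*} [AddCommMonoid F] [Group G] (p : ℕ) [hp : Fact p.Prime] (g : G)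
    (hg : g ^ p = 1) (f : G → F) (n : ℕ) (S : Finset G) (hn : S.card = n)
    (hS : ∀ k ∈ S, g⁻¹ * k * g ∈ S) (hc : ∀ k ∈ S, g * k ≠ k * g)
    (hf : ∀ k ∈ S, ∑ i ∈ range p, f (g⁻¹ ^ i * k * g ^ i) = 0) :
    ∑ k ∈ S, f k = 0 := by
  classical
  induction n using Nat.strong_induction_on generalizing S with
  | _ n ih =>
    rcases S.eq_empty_or_nonempty with rfl | ⟨k, hk⟩
    · simp
    have hgi : g⁻¹ ^ p = 1 := by simp [hg]
    let O : Finset G := (range p).image (fun i => g⁻¹ ^ i * k * g ^ i)
    have hmem : ∀ i : ℕ, ∀ k ∈ S, g⁻¹ ^ i * k * g ^ i ∈ S := by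
      intro i
      induction i with
      | zero => intro k hk; simpa using hk
      | succ i ihi =>
        intro k hk
        have := hS _ (ihi k hk)
        have e : g⁻¹ ^ (i + 1) * k * g ^ (i + 1) = g⁻¹ * (g⁻¹ ^ i * k * g ^ i) * g := by
          rw [pow_succ' g⁻¹ i, pow_succ g i]; group
        rw [e]; exact this
    have hOS : O ⊆ S := by
      intro x hx
      obtain ⟨i, _, rfl⟩ := Finset.mem_image.1 hx
      exact hmem i k hk
    -- powers commute criterion
    have hcomm : ∀ k ∈ S, ∀ m : ℕ, 0 < m → m < p → g ^ m * k ≠ k * g ^ m := by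
      intro k hk m hm0 hm h
      apply hc k hk
      have hcop : Nat.Coprime m p := by
        rw [Nat.coprime_comm]
        exact (Nat.Prime.coprime_iff_not_dvd hp.out).2 (fun hd => absurd (Nat.le_of_dvd hm0 hd) (by omega))
      have hC : Commute (g ^ m) k := h
      obtain ⟨u, _, hu⟩ := Nat.exists_mul_mod_eq_one_of_coprime hcop hp.out.one_lt
      have hC2 : Commute ((g ^ m) ^ u) k := hC.pow_left u
      have e : (g ^ m) ^ u = g := by
        rw [← pow_mul, ← Nat.div_add_mod (m * u) p, hu, pow_add, pow_mul, hg]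
        simp
      rw [e] at hC2
      exact hC2
    have hinj : Set.InjOn (fun i => g⁻¹ ^ i * k * g ^ i) (range p : Set ℕ) := by
      have key : ∀ i j : ℕ, i < j → j < p → g⁻¹ ^ i * k * g ^ i ≠ g⁻¹ ^ j * k * g ^ j := by
        intro i j hij hj h
        apply hcomm k hk (j - i) (by omega) (by omega)
        have e : g ^ j = g ^ i * g ^ (j - i) := by rw [← pow_add]; congr 1; omega
        have e2 : g⁻¹ ^ j = g⁻¹ ^ (j - i) * g⁻¹ ^ i := by rw [← pow_add]; congr 1; omega
        have e3 : g ^ j = g ^ (j - i) * g ^ i := by rw [← pow_add]; congr 1; omega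
        calc g ^ (j - i) * k = g ^ j * (g⁻¹ ^ i * k * g ^ i) * (g ^ i)⁻¹ := by rw [e3]; group
          _ = g ^ j * (g⁻¹ ^ j * k * g ^ j) * (g ^ i)⁻¹ := by rw [h]
          _ = k * g ^ j * (g ^ i)⁻¹ := by group
          _ = k * g ^ (j - i) := by rw [e3]; group
      intro i hi j hj h
      simp only [coe_range, Set.mem_Iio] at hi hj
      rcases lt_trichotomy i j with h1 | h1 | h1
      · exact absurd h (key i j h1 hj)
      · exact h1
      · exact absurd h.symm (key j i h1 hi)
    have hO : ∑ x ∈ O, f x = 0 := by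
      rw [Finset.sum_image hinj]
      exact hf k hk
    rw [← Finset.sum_sdiff hOS, hO, add_zero]
    have hOne : O.Nonempty := ⟨k, Finset.mem_image.2 ⟨0, by simp [hp.out.pos], by simp⟩⟩
    have hcard : (S \ O).card < n := by
      rw [← hn]
      exact Finset.card_lt_card (Finset.sdiff_ssubset hOS hOne)
    refine ih _ hcard (S \ O) rfl ?_ ?_ ?_
    · intro x hx
      rw [Finset.mem_sdiff] at hx ⊢
      refine ⟨hS x hx.1, fun hxO => hx.2 ?_⟩
      obtain ⟨i, hi, hie⟩ := Finset.mem_image.1 hxO
      -- x = g (g^{-i} k g^i) g^{-1}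
      have hx' : x = g * (g⁻¹ ^ i * k * g ^ i) * g⁻¹ := by rw [hie]; group
      rcases Nat.eq_zero_or_pos i with h0 | h0
      · subst h0
        refine Finset.mem_image.2 ⟨p - 1, by simp [hp.out.pos], ?_⟩
        have e1 : g⁻¹ ^ (p - 1) = g := by
          have : g⁻¹ ^ (p - 1) * g⁻¹ = 1 := by rw [← pow_succ, Nat.sub_add_cancel hp.out.one_le, hgi]
          rw [eq_comm, ← inv_inv g]; rw [eq_comm]; simpa using eq_inv_of_mul_eq_one_left this
        have e2 : g ^ (p - 1) = g⁻¹ := by
          have : g ^ (p - 1) * g = 1 := by rw [← pow_succ, Nat.sub_add_cancel hp.out.one_le, hg]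
          exact eq_inv_of_mul_eq_one_left this
        simp only [e1, e2]
        rw [hx']; simp
      · refine Finset.mem_image.2 ⟨i - 1, by simp at hi ⊢; omega, ?_⟩
        obtain ⟨j, rfl⟩ : ∃ j, i = j + 1 := ⟨i - 1, by omega⟩
        simp only [Nat.add_sub_cancel]
        rw [hx', pow_succ' g⁻¹ j, pow_succ g j]; group
    · intro x hx; exact hc x (Finset.mem_sdiff.1 hx).1
    · intro x hx; exact hf x (Finset.mem_sdiff.1 hx).1

namespace GBasis

variable {F A G : Type*} [Field F] [Ring A] [Algebra F A] [Group G] (B : GBasis F A G)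

lemma repr_conj (g k : G) (a : A) :
    B.b.repr (B.b g * a * B.b g⁻¹) k = B.b.repr a (g⁻¹ * k * g) := by
  have key : (Finsupp.lapply k) ∘ₗ B.b.repr.toLinearMap ∘ₗ
      (LinearMap.mulRight F (B.b g⁻¹)) ∘ₗ (LinearMap.mulLeft F (B.b g))
      = (Finsupp.lapply (g⁻¹ * k * g)) ∘ₗ B.b.repr.toLinearMap := by
    refine B.b.ext fun h => ?_
    simp only [LinearMap.comp_apply, LinearMap.mulLeft_apply, LinearMap.mulRight_apply,
      LinearEquiv.coe_coe, Finsupp.lapply_apply, ← B.mul, Module.Basis.repr_self]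
    classical
    rw [Finsupp.single_apply, Finsupp.single_apply]
    congr 1
    apply propext
    constructor
    · intro h'; rw [← h']; group
    · intro h'; rw [h']; group
  simpa using congrArg (fun T => T a) key

/-- the logarithmic derivative cocycle -/
noncomputable def dl (D : A →ₗ[F] A) (g : G) : A := D (B.b g) * B.b g⁻¹

lemma dl_mul {D : A →ₗ[F] A} (hD : IsDer D) (g h : G) :
    B.dl D (g * h) = B.dl D g + B.b g * B.dl D h * B.b g⁻¹ := by
  unfold dl
  rw [B.mul, hD, mul_inv_rev, B.mul, add_mul]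
  congr 1
  · have e : D (B.b g) * B.b h * (B.b h⁻¹ * B.b g⁻¹)
        = D (B.b g) * (B.b h * B.b h⁻¹) * B.b g⁻¹ := by
      simp only [mul_assoc]
    rw [e, B.mul_inv, mul_one]
  · simp only [mul_assoc]

lemma D_b {D : A →ₗ[F] A} (g : G) : D (B.b g) = B.dl D g * B.b g := by
  unfold dl; rw [mul_assoc, B.inv_mul, mul_one]

lemma dl_one {D : A →ₗ[F] A} (hD : IsDer D) : B.dl D 1 = 0 := by
  unfold dl; rw [B.one, hD.map_one, zero_mul]

lemma dl_pow {D : A →ₗ[F] A} (hD : IsDer D) (g : G) (n : ℕ) :
    B.dl D (g ^ n) = ∑ i ∈ range n, B.b (g ^ i) * B.dl D g * B.b (g ^ i)⁻¹ := by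
  induction n with
  | zero => simp [B.dl_one hD]
  | succ n ih => rw [pow_succ, B.dl_mul hD, ih, Finset.sum_range_succ]

/-- coefficient of the image in the abelianized group algebra -/
lemma ab_coeff [Fintype G] (a : A) (y : Abelianization G) [DecidableEq (Abelianization G)] :
    (B.ab a).coeff y = ∑ k : G, if Abelianization.of k = y then B.b.repr a k else 0 := by
  have key : (Finsupp.lapply y) ∘ₗ (MonoidAlgebra.coeffLinearEquiv F).toLinearMap ∘ₗ
      B.ab.toLinearMap
      = ∑ k : G, (if Abelianization.of k = y then (Finsupp.lapply k) ∘ₗ B.b.repr.toLinearMap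
          else 0) := by
    refine B.b.ext fun h => ?_
    simp only [LinearMap.comp_apply, LinearMap.sum_apply, AlgHom.toLinearMap_apply, ab_b]
    rw [Finset.sum_eq_single h]
    · by_cases hh : Abelianization.of h = y
      · simp [hh, MonoidAlgebra.coeffLinearEquiv]
      · simp [hh, MonoidAlgebra.coeffLinearEquiv]
    · intro k _ hk
      by_cases hh : Abelianization.of k = y
      · simp [hh, hk.symm]
      · simp [hh]
    · simp
  have := congrArg (fun T => T a) key
  simp only [LinearMap.comp_apply, LinearMap.sum_apply, AlgHom.toLinearMap_apply] at this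
  rw [show (B.ab a).coeff y = (Finsupp.lapply (R := F) y)
    ((MonoidAlgebra.coeffLinearEquiv F).toLinearMap (B.ab a)) from rfl, this]
  refine Finset.sum_congr rfl fun k _ => ?_
  split_ifs <;> simp

lemma ab_dl_mul {D : A →ₗ[F] A} (hD : IsDer D) (g h : G) :
    B.ab (B.dl D (g * h)) = B.ab (B.dl D g) + B.ab (B.dl D h) := by
  rw [B.dl_mul hD, map_add, map_mul, map_mul, mul_comm (B.ab (B.b g)), mul_assoc, ← map_mul B.ab,
    B.mul_inv, map_one, mul_one]

/-- the key vanishing -/
theorem dl_vanish [Fintype G] (p : ℕ) [hp : Fact p.Prime] (hexp : ∀ g : G, g ^ p = 1)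
    (hcl : ∀ g ∈ commutator G, g ∈ Subgroup.center G)
    {D : A →ₗ[F] A} (hD : IsDer D) (k₀ : G) (hk₀ : k₀ ∉ Subgroup.center G) (g : G) :
    (B.ab (B.dl D g)).coeff (Abelianization.of k₀) = 0 := by
  classical
  -- first the non-commuting elements
  have step : ∀ g : G, g * k₀ ≠ k₀ * g →
      (B.ab (B.dl D g)).coeff (Abelianization.of k₀) = 0 := by
    intro g hg
    rw [ab_coeff, ← Finset.sum_filter]
    have hcoset : ∀ k : G, Abelianization.of k = Abelianization.of k₀ →
        ∃ w ∈ Subgroup.center G, k = k₀ * w := by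
      intro k hk
      have : k₀⁻¹ * k ∈ commutator G := by
        rw [← Abelianization.ker_of, MonoidHom.mem_ker, map_mul, map_inv, hk, inv_mul_cancel]
      exact ⟨k₀⁻¹ * k, hcl _ this, by group⟩
    apply orbit_sum p g (hexp g) (fun k => B.b.repr (B.dl D g) k) _ _ rfl
    · intro k hk
      simp only [Finset.mem_filter, Finset.mem_univ, true_and] at hk ⊢
      rw [map_mul, map_mul, hk, mul_comm, ← mul_assoc, ← map_mul, mul_inv_cancel, map_one, one_mul]
    · intro k hk h
      simp only [Finset.mem_filter, Finset.mem_univ, true_and] at hk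
      obtain ⟨w, hw, rfl⟩ := hcoset k hk
      apply hg
      have hw' := Subgroup.mem_center_iff.1 hw
      have h2 : g * k₀ * w = k₀ * g * w := by
        calc g * k₀ * w = g * (k₀ * w) := by group
          _ = k₀ * w * g := h
          _ = k₀ * (w * g) := by group
          _ = k₀ * (g * w) := by rw [hw' g]
          _ = k₀ * g * w := by group
      exact mul_right_cancel h2
    · intro k hk
      have h0 : B.dl D (g ^ p) = 0 := by rw [hexp, B.dl_one hD]
      rw [B.dl_pow hD] at h0
      have h1 := congrArg (fun a => B.b.repr a k) h0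
      simp only [map_sum, Finsupp.coe_finsetSum, Finset.sum_apply, map_zero,
        Finsupp.coe_zero, Pi.zero_apply, repr_conj] at h1
      rw [← h1]
      refine Finset.sum_congr rfl fun i _ => ?_
      rw [inv_pow]
  by_cases hg : g * k₀ = k₀ * g
  · have : ∃ g₀ : G, g₀ * k₀ ≠ k₀ * g₀ := by
      by_contra hcon
      push Not at hcon
      exact hk₀ (Subgroup.mem_center_iff.2 hcon)
    obtain ⟨g₀, hg₀⟩ := this
    have h1 := step (g * g₀) (by
      intro h
      apply hg₀
      have : g * (g₀ * k₀) = g * (k₀ * g₀) := by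
        calc g * (g₀ * k₀) = g * g₀ * k₀ := by group
          _ = k₀ * (g * g₀) := h
          _ = k₀ * g * g₀ := by group
          _ = g * k₀ * g₀ := by rw [hg]
          _ = g * (k₀ * g₀) := by group
      exact mul_left_cancel this)
    rw [B.ab_dl_mul hD, MonoidAlgebra.coeff_add, Finsupp.add_apply, step g₀ hg₀, add_zero] at h1
    exact h1
  · exact step g hg

end GBasis

end Q21.MI
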