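import Mathlib

/-! Group bases of algebras. -/

namespace Q21.MI

open Finset

/-- a group basis of an `F`-algebra `A` -/
structure GBasis (F A G : Type*) [Field F] [Ring A] [Algebra F A] [Group G] where
  b : Module.Basis G F A
  one : b 1 = 1
  mul : ∀ g h, b (g * h) = b g * b h

namespace GBasis

variable {F A G : Type*} [Field F] [Ring A] [Algebra F A] [Group G] (B : GBasis F A G)

/-- the group homomorphism into `A` -/
noncomputable def hom : G →* A where
  toFun := B.b
  map_one' := B.one
  map_mul' := B.mul

@[simp] lemma hom_apply (g : G) : B.hom g = B.b g := rfl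

lemma mul_inv (g : G) : B.b g * B.b g⁻¹ = 1 := by rw [← B.mul, mul_inv_cancel, B.one]
lemma inv_mul (g : G) : B.b g⁻¹ * B.b g = 1 := by rw [← B.mul, inv_mul_cancel, B.one]

lemma pow (g : G) (n : ℕ) : B.b (g ^ n) = B.b g ^ n := map_pow B.hom g n

/-- universal property -/
noncomputable def lift {R : Type*} [Ring R] [Algebra F R] (f : G →* R) : A →ₐ[F] R :=
  AlgHom.ofLinearMap (B.b.constr F f) (by rw [← B.one, Module.Basis.constr_basis, map_one]) (by
    intro x y
    have key : (LinearMap.mul F R).compl₁₂ (B.b.constr F f) (B.b.constr F f)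
        = (LinearMap.mul F A).compr₂ (B.b.constr F f) := by
      refine B.b.ext fun g => B.b.ext fun h => ?_
      simp [LinearMap.compl₁₂_apply, ← B.mul, Module.Basis.constr_basis]
    have := congrArg (fun T => T x y) key
    simpa using this.symm)

@[simp] lemma lift_b {R : Type*} [Ring R] [Algebra F R] (f : G →* R) (g : G) :
    B.lift f (B.b g) = f g := by
  simp [lift, AlgHom.ofLinearMap_apply]

/-- augmentation -/
noncomputable def aug : A →ₐ[F] F := B.lift 1

@[simp] lemma aug_b (g : G) : B.aug (B.b g) = 1 := by simp [aug]

/-- the abelianization map -/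
noncomputable def ab : A →ₐ[F] MonoidAlgebra F (Abelianization G) :=
  B.lift ((MonoidAlgebra.of F (Abelianization G)).comp Abelianization.of)

@[simp] lemma ab_b (g : G) : B.ab (B.b g) = MonoidAlgebra.single (Abelianization.of g) 1 := by
  simp [ab]

/-- The group algebra of `G`. -/
noncomputable def std (F G : Type*) [Field F] [Group G] : GBasis F (MonoidAlgebra F G) G where
  b := MonoidAlgebra.basis G F
  one := by simp [MonoidAlgebra.one_def]
  mul := by intro g h; simp

/-- transport along an algebra isomorphism -/
noncomputable def map {A' : Type*} [Ring A'] [Algebra F A'] (e : A ≃ₐ[F] A') : GBasis F A' G where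
  b := B.b.map e.toLinearEquiv
  one := by simp [B.one]
  mul := by intro g h; simp [B.mul]

/-- twisting by a linear character -/
noncomputable def twist (χ : G →* Fˣ) : GBasis F A G where
  b := B.b.unitsSMul χ
  one := by simp [Module.Basis.unitsSMul_apply, B.one]
  mul := by
    intro g h
    simp [Module.Basis.unitsSMul_apply, B.mul, Units.smul_def, smul_smul, mul_comm]

lemma twist_b (χ : G →* Fˣ) (g : G) : (B.twist χ).b g = (χ g : F) • B.b g := by
  simp [twist, Module.Basis.unitsSMul_apply, Units.smul_def]

end GBasis

end Q21.MI
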