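import Mathlib

/-! A group theoretic lemma producing an isomorphism from a correspondence. -/

namespace Q21.MI

open Subgroup

variable {G H : Type*} [Group G] [Group H]

/-- extension of a subgroup by one element -/
def extBy (Γ N Δ : Subgroup (G × H)) (hΔ : Δ ≤ Γ) (hN : N ≤ Δ)
    (hcomm : ∀ x ∈ Γ, ∀ y ∈ Γ, x * y * x⁻¹ * y⁻¹ ∈ N) (v : G × H) (hv : v ∈ Γ) :
    Subgroup (G × H) where
  carrier := {x | ∃ δ ∈ Δ, ∃ i : ℤ, x = δ * v ^ i}
  one_mem' := ⟨1, Δ.one_mem, 0, by simp⟩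
  mul_mem' := by
    rintro x y ⟨δ, hδ, i, rfl⟩ ⟨ε, hε, j, rfl⟩
    have h1 : v ^ i * ε * (v ^ i)⁻¹ * ε⁻¹ ∈ Δ := hN (hcomm _ (Γ.zpow_mem hv i) _ (hΔ hε))
    refine ⟨δ * (v ^ i * ε * (v ^ i)⁻¹ * ε⁻¹) * ε, Δ.mul_mem (Δ.mul_mem hδ h1) hε, i + j, ?_⟩
    rw [zpow_add]; group
  inv_mem' := by
    rintro x ⟨δ, hδ, i, rfl⟩
    have h1 : v ^ (-i) * δ⁻¹ * (v ^ (-i))⁻¹ * (δ⁻¹)⁻¹ ∈ Δ :=
      hN (hcomm _ (Γ.zpow_mem hv (-i)) _ (Γ.inv_mem (hΔ hδ)))
    refine ⟨(v ^ (-i) * δ⁻¹ * (v ^ (-i))⁻¹ * (δ⁻¹)⁻¹) * δ⁻¹,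
      Δ.mul_mem h1 (Δ.inv_mem hδ), -i, ?_⟩
    group

theorem iso_of_corr [Finite G] [Finite H] (p : ℕ) [hp : Fact p.Prime]
    (hG : ∀ g : G, g ^ p = 1) (hH : ∀ h : H, h ^ p = 1)
    (Γ N : Subgroup (G × H)) (hN : N ≤ Γ)
    (hcomm : ∀ x ∈ Γ, ∀ y ∈ Γ, x * y * x⁻¹ * y⁻¹ ∈ N)
    (hN1 : ∀ g : G, (g, (1 : H)) ∈ N → g = 1) (hN2 : ∀ h : H, ((1 : G), h) ∈ N → h = 1)
    (s1 : ∀ g : G, ∃ h : H, (g, h) ∈ Γ) (s2 : ∀ h : H, ∃ g : G, (g, h) ∈ Γ)
    (hcard : Nat.card G = Nat.card H) : Nonempty (G ≃* H) := by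
  classical
  let P : Subgroup (G × H) → Prop := fun Δ => N ≤ Δ ∧ Δ ≤ Γ ∧ (∀ g : G, (g, (1 : H)) ∈ Δ → g = 1) ∧
    (∀ h : H, ((1 : G), h) ∈ Δ → h = 1)
  obtain ⟨Δ, ⟨hNΔ, hΔΓ, hΔ1, hΔ2⟩, hmax⟩ :=
    (Set.toFinite {Δ | P Δ}).exists_maximal ⟨N, le_rfl, hN, hN1, hN2⟩
  -- injectivity of projections
  have inj2 : Function.Injective (fun x : Δ => x.1.2) := by
    intro x y hxy
    beta_reduce at hxy
    have h1 : (x.1 * y.1⁻¹) ∈ Δ := Δ.mul_mem x.2 (Δ.inv_mem y.2)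
    have h2 : x.1 * y.1⁻¹ = (x.1.1 * y.1.1⁻¹, 1) := by
      ext
      · rfl
      · simp only [Prod.snd_mul, Prod.snd_inv]; rw [hxy]; simp
    rw [h2] at h1
    have h3 := hΔ1 _ h1
    rw [mul_inv_eq_one] at h3
    exact Subtype.ext (Prod.ext h3 hxy)
  have inj1 : Function.Injective (fun x : Δ => x.1.1) := by
    intro x y hxy
    beta_reduce at hxy
    have h1 : (x.1 * y.1⁻¹) ∈ Δ := Δ.mul_mem x.2 (Δ.inv_mem y.2)
    have h2 : x.1 * y.1⁻¹ = (1, x.1.2 * y.1.2⁻¹) := by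
      ext
      · simp only [Prod.fst_mul, Prod.fst_inv]; rw [hxy]; simp
      · rfl
    rw [h2] at h1
    have h3 := hΔ2 _ h1
    rw [mul_inv_eq_one] at h3
    exact Subtype.ext (Prod.ext hxy h3)
  -- the order of Δ
  have hord : Nat.card Δ = Nat.card H := by
    by_contra hne
    have hlt : Nat.card Δ < Nat.card H :=
      lt_of_le_of_ne (Nat.card_le_card_of_injective _ inj2) hne
    have ns2 : ¬ Function.Surjective (fun x : Δ => x.1.2) := by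
      intro hs
      exact absurd (Nat.card_le_card_of_surjective _ hs) (by omega)
    have ns1 : ¬ Function.Surjective (fun x : Δ => x.1.1) := by
      intro hs
      exact absurd (Nat.card_le_card_of_surjective _ hs) (by omega)
    -- the two subgroups
    let S1 : Subgroup (G × H) := Γ ⊓ (Δ.map (MonoidHom.snd G H)).comap (MonoidHom.snd G H)
    let S2 : Subgroup (G × H) := Γ ⊓ (Δ.map (MonoidHom.fst G H)).comap (MonoidHom.fst G H)
    have mem1 : ∀ x : G × H, x ∈ S1 ↔ x ∈ Γ ∧ ∃ δ ∈ Δ, δ.2 = x.2 := by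
      intro x; simp only [S1, Subgroup.mem_inf, Subgroup.mem_comap, Subgroup.mem_map]; rfl
    have mem2 : ∀ x : G × H, x ∈ S2 ↔ x ∈ Γ ∧ ∃ δ ∈ Δ, δ.1 = x.1 := by
      intro x; simp only [S2, Subgroup.mem_inf, Subgroup.mem_comap, Subgroup.mem_map]; rfl
    obtain ⟨a, haΓ, ha⟩ : ∃ a ∈ Γ, a ∉ S1 := by
      by_contra hcon
      push Not at hcon
      apply ns2
      intro h
      obtain ⟨g, hg⟩ := s2 h
      obtain ⟨_, δ, hδ, hδe⟩ := (mem1 _).1 (hcon _ hg)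
      exact ⟨⟨δ, hδ⟩, hδe⟩
    obtain ⟨b, hbΓ, hb⟩ : ∃ b ∈ Γ, b ∉ S2 := by
      by_contra hcon
      push Not at hcon
      apply ns1
      intro g
      obtain ⟨h, hh⟩ := s1 g
      obtain ⟨_, δ, hδ, hδe⟩ := (mem2 _).1 (hcon _ hh)
      exact ⟨⟨δ, hδ⟩, hδe⟩
    obtain ⟨v, hvΓ, hv1, hv2⟩ : ∃ v ∈ Γ, v ∉ S1 ∧ v ∉ S2 := by
      by_cases ha2 : a ∈ S2
      · by_cases hb1 : b ∈ S1
        · refine ⟨a * b, Γ.mul_mem haΓ hbΓ, fun h => ha ?_, fun h => hb ?_⟩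
          · have := S1.mul_mem h (S1.inv_mem hb1); simpa using this
          · have := S2.mul_mem (S2.inv_mem ha2) h; simpa using this
        · exact ⟨b, hbΓ, hb1, hb⟩
      · exact ⟨a, haΓ, ha, ha2⟩
    have hvp : v ^ p = 1 := by
      ext
      · simp [hG]
      · simp [hH]
    -- powers
    have hpow : ∀ (S : Subgroup (G × H)), v ∉ S → ∀ i : ℤ, v ^ i ∈ S → v ^ i = 1 := by
      intro S hvS i hi
      by_cases hd : (p : ℤ) ∣ i
      · obtain ⟨j, rfl⟩ := hd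
        rw [zpow_mul, zpow_natCast, hvp, one_zpow]
      · exfalso
        apply hvS
        have hcop : IsCoprime i (p : ℤ) := by
          rw [isCoprime_comm]
          exact ((Nat.prime_iff_prime_int.1 hp.out).coprime_iff_not_dvd).2 hd
        obtain ⟨u, w, huw⟩ := hcop
        have : v = (v ^ i) ^ u := by
          rw [← zpow_mul]
          have e : i * u = 1 - w * p := by linarith
          rw [e, zpow_sub, zpow_one, mul_comm w, zpow_mul, zpow_natCast, hvp]; simp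
        rw [this]
        exact S.zpow_mem hi u
    let Δ' := extBy Γ N Δ hΔΓ hNΔ hcomm v hvΓ
    have hle : Δ ≤ Δ' := fun x hx => ⟨x, hx, 0, by simp⟩
    have hP : P Δ' := by
      refine ⟨hNΔ.trans hle, ?_, ?_, ?_⟩
      · rintro x ⟨δ, hδ, i, rfl⟩
        exact Γ.mul_mem (hΔΓ hδ) (Γ.zpow_mem hvΓ i)
      · rintro g ⟨δ, hδ, i, hi⟩
        have h1 : v ^ i ∈ S1 := by
          rw [mem1]
          refine ⟨Γ.zpow_mem hvΓ i, δ⁻¹, Δ.inv_mem hδ, ?_⟩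
          have := congrArg Prod.snd hi
          simp only [Prod.snd_mul] at this
          rw [Prod.snd_inv, inv_eq_iff_mul_eq_one]
          exact this.symm
        rw [hpow S1 hv1 i h1, mul_one] at hi
        rw [← hi] at hδ
        exact hΔ1 g hδ
      · rintro h ⟨δ, hδ, i, hi⟩
        have h1 : v ^ i ∈ S2 := by
          rw [mem2]
          refine ⟨Γ.zpow_mem hvΓ i, δ⁻¹, Δ.inv_mem hδ, ?_⟩
          have := congrArg Prod.fst hi
          simp only [Prod.fst_mul] at this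
          rw [Prod.fst_inv, inv_eq_iff_mul_eq_one]
          exact this.symm
        rw [hpow S2 hv2 i h1, mul_one] at hi
        rw [← hi] at hδ
        exact hΔ2 h hδ
    have h2 := hmax hP hle
    have h3 : v ∈ Δ := h2 ⟨1, Δ.one_mem, 1, by simp⟩
    exact hv1 ((mem1 v).2 ⟨hvΓ, v, h3, rfl⟩)
  have bij2 : Function.Bijective ((MonoidHom.snd G H).comp Δ.subtype) := by
    rw [Nat.bijective_iff_injective_and_card]
    exact ⟨inj2, hord⟩
  have bij1 : Function.Bijective ((MonoidHom.fst G H).comp Δ.subtype) := by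
    rw [Nat.bijective_iff_injective_and_card]
    exact ⟨inj1, hord.trans hcard.symm⟩
  exact ⟨(MulEquiv.ofBijective _ bij1).symm.trans (MulEquiv.ofBijective _ bij2)⟩

end Q21.MI
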