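import Pool.Agent.Q21.MI.Rel

/-! The commutator ideal and the matching of commutators. -/

namespace Q21.MI

open Finset

namespace GBasis

variable {F A G H : Type*} [Field F] [Ring A] [Algebra F A] [Group G] [Group H]
variable (B : GBasis F A G) (C : GBasis F A H)

/-- the correspondence: `h` corresponds to the coset of `g` modulo the centre -/
def rel (h : H) (g : G) : Prop :=
  ∀ k : G, (k : G ⧸ Subgroup.center G) ≠ g → (B.ab (C.b h)).coeff (Abelianization.of k) = 0

lemma ab_ne (h : H) : B.ab (C.b h) ≠ 0 := by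
  intro h0
  have h1 : B.ab (C.b h) * B.ab (C.b h⁻¹) = 1 := by rw [← map_mul, C.mul_inv, map_one]
  rw [h0, zero_mul] at h1
  exact zero_ne_one h1

lemma exists_rel [Fintype G] [Fintype H] (p : ℕ) [Fact p.Prime] [CharP F p]
    (hexp : ∀ g : G, g ^ p = 1) (hcl : ∀ g ∈ commutator G, g ∈ Subgroup.center G)
    (h : H) : ∃ g : G, rel B C h g := by
  classical
  have hne : ∃ y, (B.ab (C.b h)).coeff y ≠ 0 := by
    by_contra hcon
    push Not at hcon
    apply ab_ne B C h
    ext y
    simp [hcon y]
  obtain ⟨y, hy⟩ := hne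
  obtain ⟨g, rfl⟩ := QuotientGroup.mk_surjective y
  change (B.ab (C.b h)).coeff (Abelianization.of g) ≠ 0 at hy
  refine ⟨g, fun k hk => ?_⟩
  obtain ⟨μ, hμ⟩ := eq_prop B C p hexp hcl h (k : G ⧸ Subgroup.center G)
  have h1 := congrArg (fun x => x.coeff (Abelianization.of g)) hμ
  simp only [MonoidAlgebra.coeff_smul_apply] at h1
  rw [ab_eq_coeff B hcl, if_neg (Ne.symm hk)] at h1
  have hμ0 : μ = 0 := by
    rcases mul_eq_zero.1 h1.symm with h2 | h2
    · exact h2
    · exact absurd h2 hy
  have h2 := congrArg (fun x => x.coeff (Abelianization.of k)) hμ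
  simp only [MonoidAlgebra.coeff_smul_apply] at h2
  rw [ab_eq_coeff B hcl, if_pos rfl, hμ0, zero_smul] at h2
  exact h2

lemma rel_unique {h : H} {g g' : G} (h1 : rel B C h g) (h2 : rel B C h g') :
    (g : G ⧸ Subgroup.center G) = g' := by
  by_contra hne
  apply ab_ne B C h
  ext y
  obtain ⟨k, rfl⟩ := QuotientGroup.mk_surjective y
  change (B.ab (C.b h)).coeff (Abelianization.of k) = _
  by_cases hk : (k : G ⧸ Subgroup.center G) = g
  · rw [h2 k (by rw [hk]; exact hne)]; rfl
  · rw [h1 k hk]; rfl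

lemma rel_congr {h : H} {g g' : G} (h1 : rel B C h g)
    (h2 : (g : G ⧸ Subgroup.center G) = g') : rel B C h g' := by
  intro k hk
  exact h1 k (by rw [h2]; exact hk)

lemma rel_one [Fintype G] (hcl : ∀ g ∈ commutator G, g ∈ Subgroup.center G) :
    rel B C (1 : H) (1 : G) := by
  intro k hk
  rw [C.one, map_one, MonoidAlgebra.one_def, MonoidAlgebra.coeff_single,
    Finsupp.single_eq_of_ne]
  intro h
  exact hk (center_of_ab hcl (by rw [h, map_one]))

lemma rel_mul [Fintype G] (hcl : ∀ g ∈ commutator G, g ∈ Subgroup.center G)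
    {h h' : H} {g g' : G} (h1 : rel B C h g) (h2 : rel B C h' g') :
    rel B C (h * h') (g * g') := by
  classical
  intro k hk
  rw [C.mul, map_mul, MonoidAlgebra.coeff_mul]
  refine Finset.sum_eq_zero fun m _ => Finset.sum_eq_zero fun m' _ => ?_
  beta_reduce
  split_ifs with hm
  · obtain ⟨a, rfl⟩ := QuotientGroup.mk_surjective m
    obtain ⟨c, rfl⟩ := QuotientGroup.mk_surjective m'
    change Abelianization.of a * Abelianization.of c = _ at hm
    rw [← map_mul] at hm
    by_cases ha : (a : G ⧸ Subgroup.center G) = g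
    · by_cases hc : (c : G ⧸ Subgroup.center G) = g'
      · exfalso
        apply hk
        rw [← center_of_ab hcl hm, QuotientGroup.mk_mul, QuotientGroup.mk_mul, ha, hc]
      · have := h2 c hc
        change _ * (B.ab (C.b h')).coeff (Abelianization.of c) = 0
        rw [this, mul_zero]
    · have := h1 a ha
      change (B.ab (C.b h)).coeff (Abelianization.of a) * _ = 0
      rw [this, zero_mul]
  · rfl

lemma rel_surj [Fintype G] [Fintype H] (p : ℕ) [Fact p.Prime] [CharP F p]
    (hexp : ∀ g : G, g ^ p = 1) (hcl : ∀ g ∈ commutator G, g ∈ Subgroup.center G)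
    (g : G) : ∃ h : H, rel B C h g := by
  by_contra hcon
  push Not at hcon
  have h0 : ∀ h : H, (B.ab (C.b h)).coeff (Abelianization.of g) = 0 := by
    intro h
    obtain ⟨g', hg'⟩ := exists_rel B C p hexp hcl h
    by_cases hh : (g : G ⧸ Subgroup.center G) = g'
    · exact absurd (rel_congr B C hg' hh.symm) (hcon h)
    · exact hg' g hh
  have key : (Finsupp.lapply (R := F) (Abelianization.of g)) ∘ₗ
      (MonoidAlgebra.coeffLinearEquiv F).toLinearMap ∘ₗ B.ab.toLinearMap = 0 := by
    refine C.b.ext fun h => ?_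
    simpa using h0 h
  have := congrArg (fun T => T (B.b g)) key
  simp [MonoidAlgebra.coeffLinearEquiv] at this

/-- kernel of the abelianization map -/
noncomputable def I : Submodule F A := LinearMap.ker B.ab.toLinearMap
/-- augmentation ideal -/
noncomputable def J : Submodule F A := LinearMap.ker B.aug.toLinearMap

lemma mem_I {x : A} : x ∈ B.I ↔ B.ab x = 0 := Iff.rfl
lemma mem_J {x : A} : x ∈ B.J ↔ B.aug x = 0 := Iff.rfl

lemma aug_ab (x : A) : B.aug x = MonoidAlgebra.lift F F (Abelianization G) 1 (B.ab x) := by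
  have key : B.aug.toLinearMap
      = (MonoidAlgebra.lift F F (Abelianization G) 1).toLinearMap ∘ₗ B.ab.toLinearMap := by
    refine B.b.ext fun g => ?_
    simp
  simpa using congrArg (fun T => T x) key

lemma I_le_J : B.I ≤ B.J := by
  intro x hx
  rw [mem_I] at hx
  rw [mem_J, aug_ab, hx, map_zero]

/-- the submodule `IJ + JI` -/
noncomputable def L : Submodule F A := B.I * B.J ⊔ B.J * B.I

lemma L_IJ {x y : A} (hx : x ∈ B.I) (hy : y ∈ B.J) : x * y ∈ B.L :=
  Submodule.mem_sup_left (Submodule.mul_mem_mul hx hy)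
lemma L_JI {x y : A} (hx : x ∈ B.J) (hy : y ∈ B.I) : x * y ∈ B.L :=
  Submodule.mem_sup_right (Submodule.mul_mem_mul hx hy)

lemma I_mul_right {x : A} (hx : x ∈ B.I) (a : A) : x * a ∈ B.I := by
  rw [mem_I] at *; rw [map_mul, hx, zero_mul]
lemma I_mul_left {x : A} (hx : x ∈ B.I) (a : A) : a * x ∈ B.I := by
  rw [mem_I] at *; rw [map_mul, hx, mul_zero]
lemma J_mul_right {x : A} (hx : x ∈ B.J) (a : A) : x * a ∈ B.J := by
  rw [mem_J] at *; rw [map_mul, hx, zero_mul]
lemma J_mul_left {x : A} (hx : x ∈ B.J) (a : A) : a * x ∈ B.J := by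
  rw [mem_J] at *; rw [map_mul, hx, mul_zero]

lemma L_mul_right {x : A} (hx : x ∈ B.L) (a : A) : x * a ∈ B.L := by
  have h1 : B.I * B.J ≤ B.L.comap (LinearMap.mulRight F a) := by
    rw [Submodule.mul_le]
    intro m hm n hn
    simp only [Submodule.mem_comap, LinearMap.mulRight_apply, mul_assoc]
    exact B.L_IJ hm (B.J_mul_right hn a)
  have h2 : B.J * B.I ≤ B.L.comap (LinearMap.mulRight F a) := by
    rw [Submodule.mul_le]
    intro m hm n hn
    simp only [Submodule.mem_comap, LinearMap.mulRight_apply, mul_assoc]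
    exact B.L_JI hm (B.I_mul_right hn a)
  exact (sup_le h1 h2 : B.L ≤ _) hx

lemma L_mul_left {x : A} (hx : x ∈ B.L) (a : A) : a * x ∈ B.L := by
  have h1 : B.I * B.J ≤ B.L.comap (LinearMap.mulLeft F a) := by
    rw [Submodule.mul_le]
    intro m hm n hn
    simp only [Submodule.mem_comap, LinearMap.mulLeft_apply, ← mul_assoc]
    exact B.L_IJ (B.I_mul_left hm a) hn
  have h2 : B.J * B.I ≤ B.L.comap (LinearMap.mulLeft F a) := by
    rw [Submodule.mul_le]
    intro m hm n hn
    simp only [Submodule.mem_comap, LinearMap.mulLeft_apply, ← mul_assoc]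
    exact B.L_JI (B.J_mul_left hm a) hn
  exact (sup_le h1 h2 : B.L ≤ _) hx

/-- multiplication by an element of augmentation one -/
lemma L_right_one {x c : A} (hx : x ∈ B.I) (hc : B.aug c = 1) : x * c - x ∈ B.L := by
  have : x * c - x = x * (c - 1) := by noncomm_ring
  rw [this]
  exact B.L_IJ hx (by rw [mem_J, map_sub, hc, map_one, sub_self])
lemma L_left_one {x c : A} (hx : x ∈ B.I) (hc : B.aug c = 1) : c * x - x ∈ B.L := by
  have : c * x - x = (c - 1) * x := by noncomm_ring
  rw [this]
  exact B.L_JI (by rw [mem_J, map_sub, hc, map_one, sub_self]) hx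

lemma L_comm {x : A} (hx : x ∈ B.I) (a : A) : a * x - x * a ∈ B.L := by
  have h1 : a - algebraMap F A (B.aug a) ∈ B.J := by
    rw [mem_J, map_sub, AlgHom.commutes]; simp
  have h2 : a * x - x * a = (a - algebraMap F A (B.aug a)) * x
      - x * (a - algebraMap F A (B.aug a)) := by
    rw [sub_mul, mul_sub, Algebra.commutes (B.aug a) x]; abel
  rw [h2]
  exact B.L.sub_mem (B.L_JI h1 hx) (B.L_IJ hx h1)

/-- the central subalgebra spanned by the centre -/
noncomputable def Zs : Submodule F A := Submodule.span F (B.b '' (Subgroup.center G : Set G))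

lemma Zs_comm {x : A} (hx : x ∈ B.Zs) (a : A) : x * a = a * x := by
  induction hx using Submodule.span_induction with
  | mem x hx =>
    obtain ⟨z, hz, rfl⟩ := hx
    have key : LinearMap.mulLeft F (B.b z) = LinearMap.mulRight F (B.b z) := by
      refine B.b.ext fun g => ?_
      simp only [LinearMap.mulLeft_apply, LinearMap.mulRight_apply, ← B.mul]
      rw [Subgroup.mem_center_iff.1 hz g]
    simpa using congrArg (fun T => T a) key
  | zero => simp
  | add x y _ _ hx hy => rw [add_mul, mul_add, hx, hy]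
  | smul c x _ hx => rw [smul_mul_assoc, mul_smul_comm, hx]

lemma Zs_pow (p : ℕ) [Fact p.Prime] [CharP F p] (hexp : ∀ g : G, g ^ p = 1)
    {x : A} (hx : x ∈ B.Zs) : x ^ p = algebraMap F A ((B.aug x) ^ p) := by
  have : Nontrivial A := ⟨⟨B.b 1, 0, B.b.ne_zero 1⟩⟩
  have hA : CharP A p := charP_of_injective_algebraMap (algebraMap F A).injective p
  induction hx using Submodule.span_induction with
  | mem x hx =>
    obtain ⟨z, hz, rfl⟩ := hx
    rw [← B.pow, hexp, B.one, aug_b]; simp
  | zero => simp [(Fact.out : p.Prime).ne_zero]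
  | add x y hx' hy' hx hy =>
    have hc : Commute x y := B.Zs_comm hx' y
    rw [add_pow_char_of_commute p hc, hx, hy, ← map_add, map_add B.aug, add_pow_char]
  | smul c x _ hx =>
    rw [smul_pow, hx, map_smul, smul_eq_mul, mul_pow, map_mul, ← map_pow, Algebra.smul_def]

lemma eq_mem_Zs [Fintype G] (g : G) (a : A) :
    B.b g⁻¹ * B.eq (g : G ⧸ Subgroup.center G) a ∈ B.Zs := by
  classical
  have h1 : (⊤ : Submodule F A) ≤ B.Zs.comap ((LinearMap.mulLeft F (B.b g⁻¹)) ∘ₗ
      (B.eq (g : G ⧸ Subgroup.center G))) := by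
    rw [← B.b.span_eq, Submodule.span_le]
    rintro _ ⟨k, rfl⟩
    simp only [SetLike.mem_coe, Submodule.mem_comap, LinearMap.comp_apply,
      LinearMap.mulLeft_apply]
    rw [eq, Module.Basis.constr_basis]
    split_ifs with hk
    · rw [← B.mul]
      apply Submodule.subset_span
      refine ⟨g⁻¹ * k, ?_, rfl⟩
      rw [eq_comm, QuotientGroup.eq] at hk
      exact hk
    · rw [mul_zero]; exact B.Zs.zero_mem
  exact h1 Submodule.mem_top

/-- decomposition of an element of the second basis -/
lemma decomp [Fintype G] (hcl : ∀ g ∈ commutator G, g ∈ Subgroup.center G)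
    (haug : ∀ h, B.aug (C.b h) = 1) {h : H} {g : G} (hr : rel B C h g) :
    ∃ c i : A, c ∈ B.Zs ∧ B.aug c = 1 ∧ i ∈ B.I ∧ C.b h = B.b g * c + i := by
  classical
  refine ⟨B.b g⁻¹ * B.eq (g : G ⧸ Subgroup.center G) (C.b h),
    C.b h - B.eq (g : G ⧸ Subgroup.center G) (C.b h), B.eq_mem_Zs g _, ?_, ?_, ?_⟩
  · have hab : B.ab (B.eq (g : G ⧸ Subgroup.center G) (C.b h)) = B.ab (C.b h) := by
      ext y
      obtain ⟨k, rfl⟩ := QuotientGroup.mk_surjective y
      change (B.ab _).coeff (Abelianization.of k) = (B.ab _).coeff (Abelianization.of k)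
      rw [ab_eq_coeff B hcl]
      split_ifs with hk
      · rfl
      · rw [hr k hk]
    rw [map_mul, aug_b, one_mul, aug_ab, hab, ← aug_ab, haug]
  · have hab : B.ab (B.eq (g : G ⧸ Subgroup.center G) (C.b h)) = B.ab (C.b h) := by
      ext y
      obtain ⟨k, rfl⟩ := QuotientGroup.mk_surjective y
      change (B.ab _).coeff (Abelianization.of k) = (B.ab _).coeff (Abelianization.of k)
      rw [ab_eq_coeff B hcl]
      split_ifs with hk
      · rfl
      · rw [hr k hk]
    rw [mem_I, map_sub, hab, sub_self]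
  · rw [← mul_assoc, B.mul_inv, one_mul]; abel

end GBasis

end Q21.MI
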