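import Pool.Agent.Q21.MI.Ker
import Pool.Agent.Q21.MI.Grp

/-! Matching of commutators; the isomorphism for odd primes. -/

namespace Q21.MI

open Finset

namespace GBasis

variable {F A G H : Type*} [Field F] [Ring A] [Algebra F A] [Group G] [Group H]
variable (B : GBasis F A G) (C : GBasis F A H)

lemma comm_mem_I (g g' : G) : B.b (g * g' * g⁻¹ * g'⁻¹) - 1 ∈ B.I := by
  rw [mem_I, map_sub, ab_b, map_one, MonoidAlgebra.one_def]
  have : Abelianization.of (g * g' * g⁻¹ * g'⁻¹) = 1 := by
    simp only [map_mul, map_inv]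
    rw [mul_comm (Abelianization.of g)]; group
  rw [this, sub_self]

/-- the group commutator and the ring commutator agree modulo `L` -/
lemma comm_L (g g' : G) :
    (B.b g * B.b g' - B.b g' * B.b g) - (B.b (g * g' * g⁻¹ * g'⁻¹) - 1) ∈ B.L := by
  have h1 : B.b g * B.b g' - B.b g' * B.b g = (B.b (g * g' * g⁻¹ * g'⁻¹) - 1) * B.b (g' * g) := by
    rw [sub_mul, one_mul, ← B.mul, ← B.mul, ← B.mul]
    congr 2; group
  rw [h1]
  exact B.L_right_one (B.comm_mem_I g g') (B.aug_b _)

/-- matching of commutators -/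
lemma comm_match [Fintype G] (hcl : ∀ g ∈ commutator G, g ∈ Subgroup.center G)
    (hI : ∀ x, B.ab x = 0 ↔ C.ab x = 0) (haug : B.aug = C.aug)
    {h h' : H} {g g' : G} (hr : rel B C h g) (hr' : rel B C h' g') :
    B.b (g * g' * g⁻¹ * g'⁻¹) - C.b (h * h' * h⁻¹ * h'⁻¹) ∈ B.L := by
  have hIe : B.I = C.I := by
    ext x; rw [mem_I, mem_I]; exact hI x
  have hJe : B.J = C.J := by
    ext x; rw [mem_J, mem_J, haug]
  have hLe : B.L = C.L := by unfold L; rw [hIe, hJe]
  have haug' : ∀ h, B.aug (C.b h) = 1 := by intro h; rw [haug, aug_b]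
  obtain ⟨c, i, hc, hc1, hi, he⟩ := decomp B C hcl haug' hr
  obtain ⟨c', i', hc', hc1', hi', he'⟩ := decomp B C hcl haug' hr'
  have k1 := B.comm_L g g'
  have k2 := C.comm_L h h'
  rw [← hLe] at k2
  set u := B.b g with hu
  set u' := B.b g' with hu'
  have hcomI : u * u' - u' * u ∈ B.I := by
    rw [mem_I, map_sub, map_mul, map_mul, mul_comm, sub_self]
  -- the ring commutator of the `H` elements
  have k3 : (C.b h * C.b h' - C.b h' * C.b h) - (u * u' - u' * u) ∈ B.L := by
    have e : (C.b h * C.b h' - C.b h' * C.b h) - (u * u' - u' * u)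
        = ((u * u' - u' * u) * (c * c') - (u * u' - u' * u))
          + ((u * c) * i' - i' * (u * c)) - ((u' * c') * i - i * (u' * c'))
          + (i * i' - i' * i) := by
      rw [he, he']
      have e1 : u * c * (u' * c') = u * u' * (c * c') := by
        calc u * c * (u' * c') = u * (c * u') * c' := by noncomm_ring
          _ = u * (u' * c) * c' := by rw [B.Zs_comm hc u']
          _ = _ := by noncomm_ring
      have e2 : u' * c' * (u * c) = u' * u * (c * c') := by
        calc u' * c' * (u * c) = u' * (c' * u) * c := by noncomm_ring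
          _ = u' * (u * c') * c := by rw [B.Zs_comm hc' u]
          _ = u' * u * (c' * c) := by noncomm_ring
          _ = _ := by rw [B.Zs_comm hc' c]
      have e3 : (u * c + i) * (u' * c' + i') - (u' * c' + i') * (u * c + i) - (u * u' - u' * u)
          = (u * c * (u' * c') - u' * c' * (u * c)) - (u * u' - u' * u)
          + ((u * c) * i' - i' * (u * c)) - ((u' * c') * i - i * (u' * c'))
          + (i * i' - i' * i) := by noncomm_ring
      rw [e3, e1, e2, ← sub_mul]
    rw [e]
    refine B.L.add_mem (B.L.sub_mem (B.L.add_mem ?_ ?_) ?_) ?_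
    · exact B.L_right_one hcomI (by rw [map_mul, hc1, hc1', mul_one])
    · exact B.L_comm hi' _
    · exact B.L_comm hi _
    · exact B.L_comm hi' _
  have e : B.b (g * g' * g⁻¹ * g'⁻¹) - C.b (h * h' * h⁻¹ * h'⁻¹)
      = - ((u * u' - u' * u) - (B.b (g * g' * g⁻¹ * g'⁻¹) - 1))
        + ((C.b h * C.b h' - C.b h' * C.b h) - (C.b (h * h' * h⁻¹ * h'⁻¹) - 1))
        - ((C.b h * C.b h' - C.b h' * C.b h) - (u * u' - u' * u)) := by abel
  rw [e]
  exact B.L.sub_mem (B.L.add_mem (B.L.neg_mem k1) k2) k3

lemma pow_L (v i : A) (hv : B.aug v = 1) (hi : i ∈ B.I) (n : ℕ) :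
    (v + i) ^ n - v ^ n - n • i ∈ B.L := by
  induction n with
  | zero => simp
  | succ n ih =>
    have e : (v + i) ^ (n + 1) - v ^ (n + 1) - (n + 1) • i
        = ((v + i) ^ n - v ^ n - n • i) * (v + i)
          + (v ^ n * i - i) + n • (i * v - i) + n • (i * i) := by
      rw [pow_succ, pow_succ, add_smul, one_smul]
      simp only [sub_mul, mul_add, smul_mul_assoc, smul_sub]
      abel
    rw [e]
    refine B.L.add_mem (B.L.add_mem (B.L.add_mem (B.L_mul_right ih _) ?_) ?_) ?_
    · exact B.L_left_one hi (by rw [map_pow, hv, one_pow])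
    · exact B.L.smul_of_tower_mem n (B.L_right_one hi hv)
    · exact B.L.smul_of_tower_mem n (B.L_IJ hi (B.I_le_J hi))

/-- elements of the second group have trivial `p`-th power modulo `L` -/
lemma pow_match [Fintype G] (p : ℕ) [Fact p.Prime] [CharP F p]
    (hexp : ∀ g : G, g ^ p = 1) (hcl : ∀ g ∈ commutator G, g ∈ Subgroup.center G)
    (haug' : ∀ h, B.aug (C.b h) = 1) {h : H} {g : G} (hr : rel B C h g) :
    C.b (h ^ p) - 1 ∈ B.L := by
  obtain ⟨c, i, hc, hc1, hi, he⟩ := decomp B C hcl haug' hr
  have h1 := B.pow_L (B.b g * c) i (by rw [map_mul, aug_b, hc1, mul_one]) hi p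
  have hcom : Commute (B.b g) c := (B.Zs_comm hc (B.b g)).symm
  have h2 : (B.b g * c) ^ p = 1 := by
    rw [hcom.mul_pow, ← B.pow, hexp, B.one, one_mul, B.Zs_pow p hexp hc, hc1, one_pow, map_one]
  have h3 : (p : ℕ) • i = 0 := by
    rw [← Nat.cast_smul_eq_nsmul F, CharP.cast_eq_zero, zero_smul]
  rw [h2, h3, sub_zero, ← he, ← C.pow] at h1
  exact h1

/-- injectivity on the commutator subgroup of the first group -/
lemma inj_G [Fintype G] (p : ℕ) [Fact p.Prime] [CharP F p]
    (hexp : ∀ g : G, g ^ p = 1) (hcl : ∀ g ∈ commutator G, g ∈ Subgroup.center G)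
    (w : G) (hw : w ∈ commutator G) (hL : B.b w - 1 ∈ B.L) : w = 1 := by
  classical
  by_contra hne
  let _ : CommGroup (commutator G) :=
    { (inferInstance : Group (commutator G)) with
      mul_comm := fun a b => by
        apply Subtype.ext
        exact (Subgroup.mem_center_iff.1 (hcl b.1 b.2) a.1) }
  obtain ⟨s, hs, hsw⟩ := exists_sep F (M := commutator G) p
    (fun m => Subtype.ext (by simpa using hexp m.1)) ⟨w, hw⟩
    (fun h => hne (congrArg Subtype.val h))
  -- section
  let t : G → G := fun g => (Quotient.out (Abelianization.of g : Abelianization G) : G)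
  have ht : ∀ g, Abelianization.of (t g) = Abelianization.of g := by
    intro g
    exact QuotientGroup.out_eq' (Abelianization.of g)
  have hmem : ∀ g, g * (t g)⁻¹ ∈ commutator G := by
    intro g
    rw [← Abelianization.ker_of, MonoidHom.mem_ker, map_mul, map_inv, ht, mul_inv_cancel]
  let φ : G → F := fun g => s ⟨g * (t g)⁻¹, hmem g⟩
  have hφ : ∀ (v : G) (hv : v ∈ commutator G) (g : G), φ (v * g) = s ⟨v, hv⟩ + φ g := by
    intro v hv g
    have h1 : t (v * g) = t g := by
      have : Abelianization.of (v * g) = Abelianization.of g := by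
        rw [map_mul, (MonoidHom.mem_ker).1 (by rw [Abelianization.ker_of]; exact hv), one_mul]
      simp only [t, this]
    simp only [φ]
    rw [← hs]
    congr 1
    apply Subtype.ext
    simp only [Subgroup.coe_mul, h1, mul_assoc]
  let f : A →ₗ[F] F := B.b.constr F φ
  have hf : ∀ g, f (B.b g) = φ g := fun g => by simp [f]
  -- functional on the abelianized algebra
  have hright : ∀ k : G, ∀ x ∈ B.I, f (x * B.b k) = f x := by
    intro k x hx
    let T : MonoidAlgebra F (Abelianization G) →ₗ[F] F :=
      (MonoidAlgebra.basis (Abelianization G) F).constr F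
        (fun y => φ ((Quotient.out y : G) * k) - φ (Quotient.out y : G))
    have key : f ∘ₗ (LinearMap.mulRight F (B.b k)) - f = T ∘ₗ B.ab.toLinearMap := by
      refine B.b.ext fun g => ?_
      have hT : T (B.ab (B.b g)) = φ (t g * k) - φ (t g) := by
        rw [ab_b, ← MonoidAlgebra.basis_apply, Module.Basis.constr_basis]
      simp only [LinearMap.sub_apply, LinearMap.comp_apply, LinearMap.mulRight_apply,
        AlgHom.toLinearMap_apply, hT, ← B.mul, hf]
      have e : g = (g * (t g)⁻¹) * t g := by group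
      have e1 : φ (g * k) = s ⟨g * (t g)⁻¹, hmem g⟩ + φ (t g * k) := by
        rw [← hφ _ (hmem g)]; congr 1; group
      have e2 : φ g = s ⟨g * (t g)⁻¹, hmem g⟩ + φ (t g) := by
        rw [← hφ _ (hmem g)]; congr 1
      rw [e1, e2]; ring
    have h1 := congrArg (fun T => T x) key
    simp only [LinearMap.sub_apply, LinearMap.comp_apply, LinearMap.mulRight_apply,
        AlgHom.toLinearMap_apply] at h1
    rw [(B.mem_I).1 hx, map_zero, sub_eq_zero] at h1
    exact h1
  have hleft : ∀ k : G, ∀ x ∈ B.I, f (B.b k * x) = f x := by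
    intro k x hx
    let T : MonoidAlgebra F (Abelianization G) →ₗ[F] F :=
      (MonoidAlgebra.basis (Abelianization G) F).constr F
        (fun y => φ (k * (Quotient.out y : G)) - φ (Quotient.out y : G))
    have key : f ∘ₗ (LinearMap.mulLeft F (B.b k)) - f = T ∘ₗ B.ab.toLinearMap := by
      refine B.b.ext fun g => ?_
      have hT : T (B.ab (B.b g)) = φ (k * t g) - φ (t g) := by
        rw [ab_b, ← MonoidAlgebra.basis_apply, Module.Basis.constr_basis]
      simp only [LinearMap.sub_apply, LinearMap.comp_apply, LinearMap.mulLeft_apply,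
        AlgHom.toLinearMap_apply, hT, ← B.mul, hf]
      have e1 : φ (k * g) = s ⟨g * (t g)⁻¹, hmem g⟩ + φ (k * t g) := by
        rw [← hφ _ (hmem g)]; congr 1
        have := Subgroup.mem_center_iff.1 (hcl _ (hmem g)) k
        calc k * g = k * (g * (t g)⁻¹) * t g := by group
          _ = (g * (t g)⁻¹) * k * t g := by rw [this]
          _ = _ := by group
      have e2 : φ g = s ⟨g * (t g)⁻¹, hmem g⟩ + φ (t g) := by
        rw [← hφ _ (hmem g)]; congr 1; group
      rw [e1, e2]; ring
    have h1 := congrArg (fun T => T x) key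
    simp only [LinearMap.sub_apply, LinearMap.comp_apply, LinearMap.mulLeft_apply,
        AlgHom.toLinearMap_apply] at h1
    rw [(B.mem_I).1 hx, map_zero, sub_eq_zero] at h1
    exact h1
  have hfL : ∀ x ∈ B.L, f x = 0 := by
    have h1 : B.I * B.J ≤ LinearMap.ker f := by
      rw [Submodule.mul_le]
      intro x hx y hy
      rw [LinearMap.mem_ker]
      have key : f ∘ₗ (LinearMap.mulLeft F x) = f x • B.aug.toLinearMap := by
        refine B.b.ext fun k => ?_
        simp [hright k x hx]
      have h2 := congrArg (fun T => T y) key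
      simp only [LinearMap.comp_apply, LinearMap.mulLeft_apply, LinearMap.smul_apply,
        AlgHom.toLinearMap_apply] at h2
      rw [h2, (B.mem_J).1 hy, smul_zero]
    have h2 : B.J * B.I ≤ LinearMap.ker f := by
      rw [Submodule.mul_le]
      intro y hy x hx
      rw [LinearMap.mem_ker]
      have key : f ∘ₗ (LinearMap.mulRight F x) = f x • B.aug.toLinearMap := by
        refine B.b.ext fun k => ?_
        simp [hleft k x hx]
      have h2 := congrArg (fun T => T y) key
      simp only [LinearMap.comp_apply, LinearMap.mulRight_apply, LinearMap.smul_apply,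
        AlgHom.toLinearMap_apply] at h2
      rw [h2, (B.mem_J).1 hy, smul_zero]
    intro x hx
    exact (sup_le h1 h2 : B.L ≤ _) hx
  have h0 := hfL _ hL
  rw [map_sub, ← B.one, hf, hf, sub_eq_zero] at h0
  have h1 := hφ w hw 1
  rw [mul_one, h0] at h1
  exact hsw (by simpa using h1)

end GBasis

end Q21.MI
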