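import Pool.Agent.Q21.MI.Der

/-! Two group bases of one algebra: the relation between them. -/

namespace Q21.MI

open Finset

namespace GBasis

variable {F A G H : Type*} [Field F] [Ring A] [Algebra F A] [Group G] [Group H]
variable (B : GBasis F A G) (C : GBasis F A H)

lemma ab_factor : ∃ θ : MonoidAlgebra F (Abelianization G) →ₐ[F] MonoidAlgebra F (Abelianization H),
    ∀ a, θ (B.ab a) = C.ab a := by
  let f : Abelianization G →* (MonoidAlgebra F (Abelianization H))ˣ :=
    Abelianization.lift (MonoidHom.toHomUnits ((C.ab : A →* _).comp B.hom))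
  refine ⟨MonoidAlgebra.lift F _ _ ((Units.coeHom _).comp f), fun a => ?_⟩
  have key : (MonoidAlgebra.lift F _ _ ((Units.coeHom _).comp f)).toLinearMap ∘ₗ B.ab.toLinearMap
      = C.ab.toLinearMap := by
    refine B.b.ext fun g => ?_
    simp [f]
  simpa using congrArg (fun T => T a) key

lemma ab_zero {a : A} (h : B.ab a = 0) : C.ab a = 0 := by
  obtain ⟨θ, hθ⟩ := ab_factor B C
  rw [← hθ, h, map_zero]

include B C in
lemma abel_exp (p : ℕ) [Fact p.Prime] [CharP F p] (hexp : ∀ g : G, g ^ p = 1) (h : H) :
    (Abelianization.of h : Abelianization H) ^ p = 1 := by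
  have key : ∀ x : MonoidAlgebra F (Abelianization G), ∃ c : F,
      x ^ p = algebraMap F _ c := by
    have : CharP (MonoidAlgebra F (Abelianization G)) p :=
      charP_of_injective_algebraMap (algebraMap F _).injective p
    intro x
    induction x using MonoidAlgebra.induction_linear with
    | zero => exact ⟨0, by simp [(Fact.out : p.Prime).ne_zero]⟩
    | add x y hx hy =>
      obtain ⟨c, hc⟩ := hx
      obtain ⟨d, hd⟩ := hy
      exact ⟨c + d, by rw [add_pow_char, hc, hd, map_add]⟩
    | single m r =>
      refine ⟨r ^ p, ?_⟩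
      have hm : m ^ p = 1 := by
        obtain ⟨g, rfl⟩ := QuotientGroup.mk_surjective m
        change (Abelianization.of g) ^ p = 1
        rw [← map_pow, hexp, map_one]
      rw [MonoidAlgebra.single_pow, hm]
      rfl
  obtain ⟨c, hc⟩ := key (B.ab (C.b h))
  have h1 : B.ab (C.b (h ^ p) - algebraMap F A c) = 0 := by
    rw [map_sub, C.pow, map_pow, hc, AlgHom.commutes, sub_self]
  have h2 := ab_zero B C h1
  rw [map_sub, ab_b, AlgHom.commutes, sub_eq_zero] at h2
  by_contra hne
  have h3 := congrArg (fun x => x.coeff (Abelianization.of (h ^ p))) h2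
  rw [← map_pow] at hne
  simp only [MonoidAlgebra.coe_algebraMap, Function.comp_apply, MonoidAlgebra.coeff_single,
    Finsupp.single_eq_same] at h3
  rw [Finsupp.single_eq_of_ne] at h3
  · exact one_ne_zero h3
  · exact hne

lemma exists_sep_add (F : Type*) [Field F] {M : Type*} [AddCommGroup M] (p : ℕ) [Fact p.Prime]
    [CharP F p] [Module (ZMod p) M] (m : M) (hm : m ≠ 0) :
    ∃ s : M → F, (∀ x y, s (x + y) = s x + s y) ∧ s m ≠ 0 := by
  have : ∃ f : Module.Dual (ZMod p) M, f m ≠ 0 := by
    by_contra hcon
    push Not at hcon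
    exact hm ((Module.forall_dual_apply_eq_zero_iff (ZMod p) m).1 hcon)
  obtain ⟨f, hf⟩ := this
  refine ⟨fun x => ZMod.castHom (dvd_refl p) F (f x), ?_, ?_⟩
  · intro x y
    beta_reduce
    rw [map_add, map_add]
  · intro h0
    apply hf
    beta_reduce at h0
    exact (ZMod.castHom (dvd_refl p) F).injective (by rw [h0, map_zero])

/-- separating additive characters -/
lemma exists_sep (F : Type*) [Field F] {M : Type*} [CommGroup M] (p : ℕ) [Fact p.Prime] [CharP F p]
    (hM : ∀ m : M, m ^ p = 1) (m : M) (hm : m ≠ 1) :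
    ∃ s : M → F, (∀ x y, s (x * y) = s x + s y) ∧ s m ≠ 0 := by
  let _ : Module (ZMod p) (Additive M) := AddCommGroup.zmodModule (G := Additive M) (by
    intro x
    exact hM (Additive.toMul x))
  obtain ⟨s, h1, h2⟩ := exists_sep_add F p (Additive.ofMul m) (by simpa using hm)
  exact ⟨fun x => s (Additive.ofMul x), fun x y => by
    beta_reduce; rw [ofMul_mul]; exact h1 _ _, h2⟩

/-- the torus derivations -/
noncomputable def tor (s : H → F) : A →ₗ[F] A := C.b.constr F (fun h => s h • C.b h)

@[simp] lemma tor_b (s : H → F) (h : H) : C.tor s (C.b h) = s h • C.b h := by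
  simp [tor, Module.Basis.constr_basis]

lemma isDer_tor (s : H → F) (hs : ∀ x y, s (x * y) = s x + s y) : IsDer (C.tor s) := by
  intro x y
  have key : (LinearMap.mul F A).compr₂ (C.tor s)
      = (LinearMap.mul F A).compl₁₂ (C.tor s) LinearMap.id
        + (LinearMap.mul F A).compl₁₂ LinearMap.id (C.tor s) := by
    refine C.b.ext fun g => C.b.ext fun h => ?_
    simp only [LinearMap.compr₂_apply, LinearMap.mul_apply', LinearMap.add_apply,
      LinearMap.compl₁₂_apply, LinearMap.id_apply, ← C.mul, tor_b, smul_mul_assoc,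
      mul_smul_comm, hs, add_smul]
  have := congrArg (fun T => T x y) key
  simpa using this

lemma repr_tor (s : H → F) (a : A) (h : H) :
    C.b.repr (C.tor s a) h = s h * C.b.repr a h := by
  have key : (Finsupp.lapply (R := F) h) ∘ₗ C.b.repr.toLinearMap ∘ₗ (C.tor s)
      = s h • ((Finsupp.lapply (R := F) h) ∘ₗ C.b.repr.toLinearMap) := by
    refine C.b.ext fun k => ?_
    by_cases hk : k = h
    · subst hk; simp
    · simp [hk]
  simpa using congrArg (fun T => T a) key

/-- projection to a coset of the centre -/
noncomputable def eq (q : G ⧸ Subgroup.center G) : A →ₗ[F] A := by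
  classical
  exact B.b.constr F (fun g => if (g : G ⧸ Subgroup.center G) = q then B.b g else 0)

lemma repr_eq (q : G ⧸ Subgroup.center G) (a : A) (g : G)
    [Decidable ((g : G ⧸ Subgroup.center G) = q)] :
    B.b.repr (B.eq q a) g = if (g : G ⧸ Subgroup.center G) = q then B.b.repr a g else 0 := by
  classical
  have key : (Finsupp.lapply (R := F) g) ∘ₗ B.b.repr.toLinearMap ∘ₗ (B.eq q)
      = if (g : G ⧸ Subgroup.center G) = q then ((Finsupp.lapply (R := F) g) ∘ₗ
          B.b.repr.toLinearMap) else 0 := by
    refine B.b.ext fun k => ?_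
    simp only [LinearMap.comp_apply, eq, Module.Basis.constr_basis]
    by_cases hk : k = g
    · subst hk
      split_ifs <;> simp
    · by_cases h1 : (k : G ⧸ Subgroup.center G) = q <;>
      by_cases h2 : (g : G ⧸ Subgroup.center G) = q <;> simp [h1, h2, hk]
  have := congrArg (fun T => T a) key
  simp only [LinearMap.comp_apply, LinearEquiv.coe_coe, Finsupp.lapply_apply] at this
  rw [this]
  split_ifs <;> simp

lemma sum_eq [Fintype G] [Fintype (G ⧸ Subgroup.center G)] (a : A) :
    ∑ q : G ⧸ Subgroup.center G, B.eq q a = a := by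
  classical
  have key : ∑ q : G ⧸ Subgroup.center G, B.eq q = LinearMap.id := by
    refine B.b.ext fun g => ?_
    rw [LinearMap.sum_apply, LinearMap.id_apply]
    have h1 : ∀ q : G ⧸ Subgroup.center G, B.eq q (B.b g)
        = if (g : G ⧸ Subgroup.center G) = q then B.b g else 0 := by
      intro q
      rw [eq, Module.Basis.constr_basis]
      split_ifs <;> rfl
    rw [Finset.sum_congr rfl (fun q _ => h1 q)]
    simp
  simpa using congrArg (fun T => T a) key

lemma ab_D_coeff [Fintype G] (D : A →ₗ[F] A) (a : A) (k : G) :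
    (B.ab (D a)).coeff (Abelianization.of k)
      = ∑ g : G, B.b.repr a g * (B.ab (B.dl D g)).coeff (Abelianization.of (k * g⁻¹)) := by
  have key : (Finsupp.lapply (R := F) (Abelianization.of k)) ∘ₗ
      (MonoidAlgebra.coeffLinearEquiv F).toLinearMap ∘ₗ B.ab.toLinearMap ∘ₗ D
      = ∑ g : G, (B.ab (B.dl D g)).coeff (Abelianization.of (k * g⁻¹)) •
        ((Finsupp.lapply (R := F) g) ∘ₗ B.b.repr.toLinearMap) := by
    refine B.b.ext fun h => ?_
    simp only [LinearMap.comp_apply, LinearMap.sum_apply, AlgHom.toLinearMap_apply,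
      LinearMap.smul_apply, LinearEquiv.coe_coe, Module.Basis.repr_self, Finsupp.lapply_apply]
    rw [Finset.sum_eq_single h]
    · rw [B.D_b, map_mul, ab_b]
      change ((B.ab (B.dl D h)) * _).coeff _ = _
      rw [MonoidAlgebra.coeff_mul_single_apply]
      simp
    · intro g _ hg
      simp [Ne.symm hg]
    · simp
  have := congrArg (fun T => T a) key
  simp only [LinearMap.comp_apply, LinearMap.sum_apply, AlgHom.toLinearMap_apply,
      LinearMap.smul_apply, LinearEquiv.coe_coe, Finsupp.lapply_apply, smul_eq_mul] at this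
  change ((MonoidAlgebra.coeffLinearEquiv F) (B.ab (D a))) (Abelianization.of k) = _
  rw [this]
  refine Finset.sum_congr rfl fun g _ => ?_
  ring

lemma center_of_ab (hcl : ∀ g ∈ commutator G, g ∈ Subgroup.center G) {g k : G}
    (h : Abelianization.of g = Abelianization.of k) :
    (g : G ⧸ Subgroup.center G) = k := by
  rw [QuotientGroup.eq]
  apply hcl
  rw [← Abelianization.ker_of, MonoidHom.mem_ker, map_mul, map_inv, h, inv_mul_cancel]

lemma ab_eq_coeff [Fintype G] (hcl : ∀ g ∈ commutator G, g ∈ Subgroup.center G)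
    (q : G ⧸ Subgroup.center G) (a : A) (k : G)
    [Decidable ((k : G ⧸ Subgroup.center G) = q)] :
    (B.ab (B.eq q a)).coeff (Abelianization.of k)
      = if (k : G ⧸ Subgroup.center G) = q then (B.ab a).coeff (Abelianization.of k) else 0 := by
  classical
  rw [ab_coeff, ab_coeff]
  have h1 : ∀ g : G, (if Abelianization.of g = Abelianization.of k then
      B.b.repr (B.eq q a) g else 0) = if (k : G ⧸ Subgroup.center G) = q then
        (if Abelianization.of g = Abelianization.of k then B.b.repr a g else 0) else 0 := by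
    intro g
    by_cases hg : Abelianization.of g = Abelianization.of k
    · rw [if_pos hg, if_pos hg, repr_eq, center_of_ab hcl hg]
      split_ifs <;> rfl
    · rw [if_neg hg, if_neg hg]; simp
  rw [Finset.sum_congr rfl (fun g _ => h1 g)]
  split_ifs <;> simp

/-- the key: the coset components of an element of the second group basis are proportional to it
modulo commutators -/
theorem eq_prop [Fintype G] [Fintype H] (p : ℕ) [Fact p.Prime] [CharP F p]
    (hexp : ∀ g : G, g ^ p = 1) (hcl : ∀ g ∈ commutator G, g ∈ Subgroup.center G)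
    (h : H) (q : G ⧸ Subgroup.center G) :
    ∃ μ : F, B.ab (B.eq q (C.b h)) = μ • B.ab (C.b h) := by
  classical
  set a := C.b h with ha
  -- torus derivations
  have step : ∀ s : H → F, (∀ x y, s (x * y) = s x + s y) →
      B.ab (C.tor s (B.eq q a) - s h • B.eq q a) = 0 := by
    intro s hs
    have hD : IsDer (C.tor s) := C.isDer_tor s hs
    have hDa : C.tor s a = s h • a := by rw [ha, tor_b]
    have hvan : ∀ g k : G, (k : G ⧸ Subgroup.center G) ≠ g →
        (B.ab (B.dl (C.tor s) g)).coeff (Abelianization.of (k * g⁻¹)) = 0 := by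
      intro g k hkg
      apply B.dl_vanish p hexp hcl hD
      intro hmem
      apply hkg
      rw [eq_comm, QuotientGroup.eq]
      have := Subgroup.Normal.conj_mem (inferInstance : (Subgroup.center G).Normal) _ hmem g⁻¹
      simpa [mul_assoc] using this
    rw [map_sub, map_smul, sub_eq_zero]
    ext y
    obtain ⟨k, rfl⟩ := QuotientGroup.mk_surjective y
    change (B.ab (C.tor s (B.eq q a))).coeff (Abelianization.of k)
      = (s h • B.ab (B.eq q a)).coeff (Abelianization.of k)
    rw [MonoidAlgebra.coeff_smul_apply, ab_eq_coeff B hcl, ab_D_coeff]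
    by_cases hk : (k : G ⧸ Subgroup.center G) = q
    · rw [if_pos hk, ← MonoidAlgebra.coeff_smul_apply, ← map_smul, ← hDa, ab_D_coeff]
      refine Finset.sum_congr rfl fun g _ => ?_
      rw [repr_eq]
      by_cases hg : (g : G ⧸ Subgroup.center G) = q
      · rw [if_pos hg]
      · rw [hvan g k (by rw [hk]; exact Ne.symm hg)]; simp
    · rw [if_neg hk, smul_zero]
      refine Finset.sum_eq_zero fun g _ => ?_
      rw [repr_eq]
      by_cases hg : (g : G ⧸ Subgroup.center G) = q
      · rw [hvan g k (by rw [hg]; exact hk)]; simp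
      · rw [if_neg hg]; simp
  set a' := B.eq q a with ha'
  have hHexp : ∀ m : Abelianization H, m ^ p = 1 := by
    intro m
    obtain ⟨k, rfl⟩ := QuotientGroup.mk_surjective m
    exact abel_exp B C p hexp k
  have hco : ∀ y : Abelianization H, y ≠ Abelianization.of h → (C.ab a').coeff y = 0 := by
    intro y hy
    obtain ⟨s, hs, hsy⟩ := exists_sep F p hHexp (y * (Abelianization.of h)⁻¹) (by
      intro h1; exact hy (by rwa [mul_inv_eq_one] at h1))
    have h1 := ab_zero B C (step (fun x => s (Abelianization.of x)) (by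
      intro x y; rw [map_mul, hs]))
    have h2 := congrArg (fun x => x.coeff y) h1
    rw [map_sub, map_smul] at h2
    simp only [MonoidAlgebra.coeff_sub, MonoidAlgebra.coeff_zero, Finsupp.coe_sub, Pi.sub_apply,
      Finsupp.coe_zero, Pi.zero_apply, MonoidAlgebra.coeff_smul_apply] at h2
    have h3 : (C.ab (C.tor (fun x => s (Abelianization.of x)) a')).coeff y
        = s y * (C.ab a').coeff y := by
      rw [ab_coeff, ab_coeff, Finset.mul_sum]
      refine Finset.sum_congr rfl fun k _ => ?_
      rw [repr_tor]
      split_ifs with hk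
      · rw [hk]
      · simp
    rw [h3, smul_eq_mul, ← sub_mul] at h2
    have h4 : s y - s (Abelianization.of h) ≠ 0 := by
      have h5 : s y = s (y * (Abelianization.of h)⁻¹) + s (Abelianization.of h) := by
        rw [← hs]; simp
      rw [h5]; simpa using hsy
    exact (mul_eq_zero.1 h2).resolve_left h4
  refine ⟨(C.ab a').coeff (Abelianization.of h), ?_⟩
  have h1 : C.ab (a' - (C.ab a').coeff (Abelianization.of h) • a) = 0 := by
    rw [map_sub, map_smul, ha, ab_b, sub_eq_zero]
    ext y
    by_cases hy : y = Abelianization.of h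
    · subst hy; simp
    · rw [hco y hy]; simp [Ne.symm hy]
  have h2 := ab_zero C B h1
  rw [map_sub, map_smul, sub_eq_zero] at h2
  exact h2

end GBasis

end Q21.MI
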